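import Pool.Agent.Lib.MP_684ec1_an.HP.Spec

/-!
# MP_684ec1, module AFF: every half disc
-/

set_option autoImplicit false

namespace Pool.Agent.Lib.MP684ec1.HP

open Complex Polynomial MeasureTheory intervalIntegral

namespace AFFM

/-- the affine substitution -/
noncomputable def sub (p : ℂ[X]) (c v : ℂ) : ℂ[X] := p.comp (C c + C v * X)

theorem eval_sub (p : ℂ[X]) (c v w : ℂ) : (sub p c v).eval w = p.eval (c + v * w) := by
  simp [sub, eval_comp]

theorem deriv_sub (p : ℂ[X]) (c v w : ℂ) :
    (sub p c v).derivative.eval w = v * p.derivative.eval (c + v * w) := by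
  simp [sub, derivative_comp, eval_comp]

theorem sph_sub (p : ℂ[X]) (c v w : ℂ) : sph (sub p c v) w = ‖v‖ * sph p (c + v * w) := by
  unfold sph
  rw [eval_sub, deriv_sub, norm_mul, mul_div_assoc]

theorem natDegree_sub (p : ℂ[X]) (c : ℂ) {v : ℂ} (hv : v ≠ 0) :
    (sub p c v).natDegree = p.natDegree := by
  unfold sub
  rw [natDegree_comp, show (C c + C v * X : ℂ[X]) = C v * X + C c by ring,
    natDegree_linear hv, mul_one]

theorem integral_sub (f : ℂ → ℝ) (c u : ℂ) {R : ℝ} (hR : 0 < R) (hu : ‖u‖ = 1) :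
    ∫ z, f z = R ^ 2 * ∫ w, f (c + (R : ℂ) * u * w) := by
  have h1 : ∫ z, f (c + z) = ∫ z, f z := integral_add_left_eq_self f c
  have hmem : u ∈ Submonoid.unitSphere ℂ := by
    simp [Submonoid.unitSphere, hu]
  let a : Circle := ⟨u, hmem⟩
  have hrot : ∀ w : ℂ, rotation a w = u * w := fun w => rfl
  have h2 : ∫ w, f (c + u * w) = ∫ z, f (c + z) := by
    have := ((rotation a).measurePreserving).integral_comp
      (rotation a).toHomeomorph.measurableEmbedding (fun z => f (c + z))
    simpa only [hrot] using this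
  have h3 := Measure.integral_comp_smul (volume : Measure ℂ) (fun w => f (c + u * w)) R
  rw [Complex.finrank_real_complex, h2, h1] at h3
  have e : ∀ w : ℂ, f (c + u * (R • w)) = f (c + (R : ℂ) * u * w) := fun w => by
    rw [Complex.real_smul]
    congr 2
    ring
  simp only [e] at h3
  rw [h3, abs_of_pos (by positivity), smul_eq_mul, mul_inv_cancel_left₀ (by positivity)]

end AFFM

open AFFM in
theorem specAFF (hLMT : SpecLMT) : SpecAFF := by
  intro p c u R hR hu hz
  have huu : u * (starRingEnd ℂ) u = 1 := by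
    rw [Complex.mul_conj, Complex.normSq_eq_norm_sq, hu]
    norm_num
  have u0 : u ≠ 0 := by
    intro h
    rw [h] at hu
    simp at hu
  have hv : (R : ℂ) * u ≠ 0 := mul_ne_zero (Complex.ofReal_ne_zero.2 hR.ne') u0
  have key : ∀ w : ℂ, ((c + (R : ℂ) * u * w) - c) * (starRingEnd ℂ) u = (R : ℂ) * w := by
    intro w
    calc ((c + (R : ℂ) * u * w) - c) * (starRingEnd ℂ) u
        = (R : ℂ) * w * (u * (starRingEnd ℂ) u) := by ring
      _ = (R : ℂ) * w := by rw [huu, mul_one]
  have keyn : ∀ w : ℂ, ‖(c + (R : ℂ) * u * w) - c‖ = R * ‖w‖ := by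
    intro w
    rw [show (c + (R : ℂ) * u * w) - c = (R : ℂ) * u * w by ring, norm_mul, norm_mul, hu,
      Complex.norm_real, Real.norm_of_nonneg hR.le, mul_one]
  rcases Nat.eq_zero_or_pos p.natDegree with h0 | h0
  · obtain ⟨a, ha⟩ : ∃ a, p = C a := ⟨_, eq_C_of_natDegree_eq_zero h0⟩
    have hs : ∀ z, sph p z = 0 := fun z => by
      unfold sph
      rw [ha, derivative_C]
      simp
    simp only [hs, integral_zero]
    positivity
  · have hlow : Low (sub p c ((R : ℂ) * u)) := by
      refine ⟨by rw [natDegree_sub p c hv]; exact h0, fun w hw => ?_⟩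
      rw [eval_sub] at hw
      have := hz _ hw
      rw [key, Complex.im_ofReal_mul] at this
      by_contra hc
      push Not at hc
      have := mul_pos hR hc
      linarith
    have hL := hLMT _ hlow
    have hS : MeasurableSet {z : ℂ | ‖z - c‖ ≤ R ∧ 0 ≤ ((z - c) * (starRingEnd ℂ) u).im} := by
      have a1 : MeasurableSet {z : ℂ | ‖z - c‖ ≤ R} := measurableSet_le (by fun_prop) (by fun_prop)
      have a2 : MeasurableSet {z : ℂ | 0 ≤ ((z - c) * (starRingEnd ℂ) u).im} :=
        measurableSet_le (by fun_prop) (Complex.measurable_im.comp (by fun_prop))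
      exact a1.inter a2
    have hH : MeasurableSet Hd := by
      have a1 : MeasurableSet {z : ℂ | ‖z‖ ≤ 1} := measurableSet_le (by fun_prop) (by fun_prop)
      have a2 : MeasurableSet {z : ℂ | 0 ≤ z.im} :=
        measurableSet_le (by fun_prop) Complex.measurable_im
      exact a1.inter a2
    rw [← MeasureTheory.integral_indicator hS, integral_sub _ c u hR hu]
    have e : ∀ w : ℂ, Set.indicator {z : ℂ | ‖z - c‖ ≤ R ∧ 0 ≤ ((z - c) * (starRingEnd ℂ) u).im}
        (sph p) (c + (R : ℂ) * u * w) =
        Set.indicator Hd (fun w => R⁻¹ * sph (sub p c ((R : ℂ) * u)) w) w := by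
      intro w
      have hiff : c + (R : ℂ) * u * w ∈
          {z : ℂ | ‖z - c‖ ≤ R ∧ 0 ≤ ((z - c) * (starRingEnd ℂ) u).im} ↔ w ∈ Hd := by
        simp only [Set.mem_ofPred_eq, Hd]
        rw [keyn, key, Complex.im_ofReal_mul]
        constructor
        · rintro ⟨a1, a2⟩
          refine ⟨?_, ?_⟩
          · by_contra hc
            push Not at hc
            nlinarith
          · by_contra hc
            push Not at hc
            nlinarith
        · rintro ⟨a1, a2⟩
          exact ⟨by nlinarith, by positivity⟩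
      by_cases hw : w ∈ Hd
      · rw [Set.indicator_of_mem (hiff.2 hw), Set.indicator_of_mem hw, sph_sub, norm_mul, hu,
          Complex.norm_real, Real.norm_of_nonneg hR.le, mul_one, inv_mul_cancel_left₀ hR.ne']
      · rw [Set.indicator_of_notMem (fun h => hw (hiff.1 h)), Set.indicator_of_notMem hw]
    simp only [e]
    rw [MeasureTheory.integral_indicator hH, MeasureTheory.integral_const_mul]
    calc R ^ 2 * (R⁻¹ * ∫ w in Hd, sph (sub p c ((R : ℂ) * u)) w)
        = R * ∫ w in Hd, sph (sub p c ((R : ℂ) * u)) w := by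
          rw [← mul_assoc, pow_two, mul_assoc R R, mul_inv_cancel₀ hR.ne', mul_one]
      _ ≤ R * (3 * Real.pi) := mul_le_mul_of_nonneg_left hL hR.le
      _ = 3 * Real.pi * R := by ring

end Pool.Agent.Lib.MP684ec1.HP
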