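import Pool.Agent.Lib.MP_684ec1_an.HP.Spec

/-!
# MP_684ec1, module AREA: the spherical area of the image of a polynomial

For a polynomial `p` of degree `n` and a measurable set `A` of the plane the integral over `A` of
`(|p'| / (1 + |p|²))²` is at most `π n`.
-/

set_option autoImplicit false

namespace Pool.Agent.Lib.MP684ec1.HP

open Complex Polynomial MeasureTheory Set
open scoped ENNReal Topology

namespace AREAM

lemma lint_Ioi : ∫⁻ r in Ioi (0 : ℝ), ENNReal.ofReal (r / (1 + r ^ 2) ^ 2) = ENNReal.ofReal (1 / 2) := by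
  have hder : ∀ x ∈ Ioi (0 : ℝ), HasDerivAt (fun r : ℝ => -(1 / (2 * (1 + r ^ 2))))
      (x / (1 + x ^ 2) ^ 2) x := by
    intro x _
    have h1 : HasDerivAt (fun r : ℝ => 2 * (1 + r ^ 2)) (2 * (2 * x)) x := by
      have := ((hasDerivAt_pow 2 x).const_add 1).const_mul 2
      simpa using this
    have h2 := (h1.inv (by positivity)).neg
    have e1 : (fun r : ℝ => -(1 / (2 * (1 + r ^ 2)))) = -(fun r : ℝ => 2 * (1 + r ^ 2))⁻¹ := by
      funext r
      simp
    rw [e1]
    have e2 : x / (1 + x ^ 2) ^ 2 = -(-(2 * (2 * x)) / (2 * (1 + x ^ 2)) ^ 2) := by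
      have : (1 + x ^ 2) ≠ 0 := by positivity
      field_simp
    rw [e2]
    exact h2
  have hnn : ∀ x ∈ Ioi (0 : ℝ), 0 ≤ x / (1 + x ^ 2) ^ 2 := by
    intro x hx
    have : (0 : ℝ) < x := hx
    positivity
  have hcont : ContinuousWithinAt (fun r : ℝ => -(1 / (2 * (1 + r ^ 2)))) (Ici 0) 0 := by
    apply ContinuousAt.continuousWithinAt
    apply ContinuousAt.neg
    apply ContinuousAt.div continuousAt_const (by fun_prop)
    norm_num
  have hlim : Filter.Tendsto (fun r : ℝ => -(1 / (2 * (1 + r ^ 2)))) Filter.atTop (𝓝 0) := by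
    have h1 : Filter.Tendsto (fun r : ℝ => 2 * (1 + r ^ 2)) Filter.atTop Filter.atTop := by
      apply Filter.Tendsto.const_mul_atTop two_pos
      apply Filter.tendsto_atTop_add_const_left
      exact Filter.tendsto_pow_atTop two_ne_zero
    have h2 := h1.inv_tendsto_atTop.neg
    simpa using h2
  have hint := integrableOn_Ioi_deriv_of_nonneg hcont hder hnn hlim
  have hval := integral_Ioi_of_hasDerivAt_of_nonneg hcont hder hnn hlim
  rw [← ofReal_integral_eq_lintegral_ofReal hint, hval]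
  · norm_num
  · exact (ae_restrict_iff' measurableSet_Ioi).2 (Filter.Eventually.of_forall hnn)

lemma lint_sphere : ∫⁻ w : ℂ, ENNReal.ofReal (1 / (1 + ‖w‖ ^ 2) ^ 2) = ENNReal.ofReal Real.pi := by
  rw [← Complex.lintegral_comp_polarCoord_symm]
  have h1 : ∫⁻ q in polarCoord.target, ENNReal.ofReal q.1 •
      ENNReal.ofReal (1 / (1 + ‖Complex.polarCoord.symm q‖ ^ 2) ^ 2) =
      ∫⁻ q in Ioi (0 : ℝ) ×ˢ Ioo (-Real.pi) Real.pi,
        ENNReal.ofReal (q.1 / (1 + q.1 ^ 2) ^ 2) * 1 := by
    apply setLIntegral_congr_fun (measurableSet_Ioi.prod measurableSet_Ioo)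
    intro q hq
    have hq1 : (0 : ℝ) < q.1 := hq.1
    simp only [smul_eq_mul, mul_one]
    rw [← ENNReal.ofReal_mul hq1.le, Complex.norm_polarCoord_symm, sq_abs]
    congr 1
    ring
  rw [h1, Measure.volume_eq_prod, ← Measure.prod_restrict,
    lintegral_prod_mul (f := fun r : ℝ => ENNReal.ofReal (r / (1 + r ^ 2) ^ 2)) (g := fun _ => 1)
      (by fun_prop) (by fun_prop), lint_Ioi, lintegral_one, Measure.restrict_apply_univ,
    Real.volume_Ioo, ← ENNReal.ofReal_mul (by norm_num)]
  congr 1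
  ring

lemma det_smul_one (c : ℂ) : (c • (1 : ℂ →L[ℝ] ℂ)).det = ‖c‖ ^ 2 := by
  have h : ((c • (1 : ℂ →L[ℝ] ℂ) : ℂ →L[ℝ] ℂ) : ℂ →ₗ[ℝ] ℂ) = Algebra.lmul ℝ ℂ c := by
    (ext; simp)
  unfold ContinuousLinearMap.det
  rw [h, ← Algebra.norm_apply, Algebra.norm_complex_apply, Complex.normSq_eq_norm_sq]

/-- Near a point with `p' ≠ 0` the polynomial is injective. -/
lemma exists_inj (p : ℂ[X]) (z : ℂ) (hz : p.derivative.eval z ≠ 0) :
    ∃ N : Set ℂ, IsOpen N ∧ z ∈ N ∧ InjOn (fun z => p.eval z) N := by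
  have h := (p.hasStrictDerivAt z).hasStrictFDerivAt_equiv hz
  refine ⟨(h.toOpenPartialHomeomorph _).source, (h.toOpenPartialHomeomorph _).open_source,
    h.mem_toOpenPartialHomeomorph_source, ?_⟩
  have := (h.toOpenPartialHomeomorph _).injOn
  rwa [h.toOpenPartialHomeomorph_coe] at this

lemma exists_cover (p : ℂ[X]) : ∃ N : ℕ → Set ℂ, (∀ k, IsOpen (N k)) ∧
    (∀ k, InjOn (fun z => p.eval z) (N k)) ∧ {z : ℂ | p.derivative.eval z ≠ 0} ⊆ ⋃ k, N k := by
  classical
  have h1 : ∀ z : ℂ, ∃ N : Set ℂ, IsOpen N ∧ InjOn (fun z => p.eval z) N ∧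
      (p.derivative.eval z ≠ 0 → z ∈ N) := by
    intro z
    by_cases hz : p.derivative.eval z ≠ 0
    · obtain ⟨N, h1, h2, h3⟩ := exists_inj p z hz
      exact ⟨N, h1, h3, fun _ => h2⟩
    · exact ⟨∅, isOpen_empty, injOn_empty _, fun h => absurd h hz⟩
  choose N hN1 hN2 hN3 using h1
  obtain ⟨t, _, htc, ht⟩ := TopologicalSpace.countable_cover_nhdsWithin
    (s := {z : ℂ | p.derivative.eval z ≠ 0}) (f := N)
    (fun z hz => mem_nhdsWithin_of_mem_nhds ((hN1 z).mem_nhds (hN3 z hz)))
  obtain ⟨f, hf⟩ := Set.countable_iff_exists_subset_range.1 htc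
  refine ⟨fun k => N (f k), fun k => hN1 _, fun k => hN2 _, ht.trans ?_⟩
  intro z hz
  simp only [mem_iUnion] at hz ⊢
  obtain ⟨x, hx, hz⟩ := hz
  obtain ⟨k, rfl⟩ := hf hx
  exact ⟨k, hz⟩

/-- A point has at most `n` preimages in disjoint sets. -/
lemma sum_indicator_le (p : ℂ[X]) (hp : 0 < p.natDegree) (B : ℕ → Set ℂ)
    (hB : Pairwise (Function.onFun Disjoint B)) (g : ℂ → ℝ≥0∞) (w : ℂ) :
    ∑' k, ((fun z => p.eval z) '' B k).indicator g w ≤ (p.natDegree : ℝ≥0∞) * g w := by
  classical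
  rw [ENNReal.tsum_eq_iSup_sum]
  apply iSup_le
  intro s
  set t := s.filter (fun k => w ∈ (fun z => p.eval z) '' B k) with ht
  have h1 : ∑ k ∈ s, ((fun z => p.eval z) '' B k).indicator g w = ∑ k ∈ t, g w := by
    rw [ht, Finset.sum_filter]
    apply Finset.sum_congr rfl
    intro k _
    rw [indicator_apply]
  rw [h1, Finset.sum_const, nsmul_eq_mul]
  gcongr
  have hq : p - C w ≠ 0 := by
    intro h
    rw [sub_eq_zero] at h
    rw [h, natDegree_C] at hp
    exact lt_irrefl _ hp
  have hpre : ∀ k, ∃ z, k ∈ t → (z ∈ B k ∧ p.eval z = w) := by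
    intro k
    by_cases hk : k ∈ t
    · obtain ⟨z, hz1, hz2⟩ := (Finset.mem_filter.1 hk).2
      exact ⟨z, fun _ => ⟨hz1, hz2⟩⟩
    · exact ⟨0, fun h => absurd h hk⟩
  choose ζ hζ using hpre
  calc t.card ≤ (p - C w).roots.toFinset.card := by
        apply Finset.card_le_card_of_injOn ζ
        · intro k hk
          have := hζ k hk
          rw [Finset.mem_coe, Multiset.mem_toFinset, mem_roots hq, IsRoot.def, eval_sub, eval_C,
            this.2, sub_self]
        · intro k hk l hl hkl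
          by_contra hne
          have h1 := (hζ k hk).1
          have h2 := (hζ l hl).1
          rw [hkl] at h1
          exact (Set.disjoint_left.1 (hB hne) h1) h2
    _ ≤ (p - C w).natDegree := (Multiset.toFinset_card_le _).trans (card_roots' _)
    _ ≤ p.natDegree := by
        rw [natDegree_sub_C]

lemma lint_le (p : ℂ[X]) (hp : 0 < p.natDegree) (A : Set ℂ) (hA : MeasurableSet A)
    (g : ℂ → ℝ≥0∞) (hg : Measurable g) :
    ∫⁻ z in A, ENNReal.ofReal (‖p.derivative.eval z‖ ^ 2) * g (p.eval z) ≤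
      (p.natDegree : ℝ≥0∞) * ∫⁻ w, g w := by
  obtain ⟨N, hN1, hN2, hN3⟩ := exists_cover p
  set U : Set ℂ := {z : ℂ | p.derivative.eval z ≠ 0} with hU
  have hUm : MeasurableSet U :=
    (measurableSet_singleton (0 : ℂ)).compl.preimage p.derivative.continuous.measurable
  have hUc : (volume : Measure ℂ) Uᶜ = 0 := by
    have hd : p.derivative ≠ 0 := by
      intro h
      have := Polynomial.derivative_eq_zero.1 h
      omega
    apply Set.Finite.measure_zero
    apply (p.derivative.roots.toFinset.finite_toSet).subset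
    intro z hz
    rw [Finset.mem_coe, Multiset.mem_toFinset, mem_roots hd]
    simpa [hU] using hz
  set B : ℕ → Set ℂ := fun k => disjointed N k ∩ (A ∩ U) with hBdef
  have hNm : ∀ k, MeasurableSet (N k) := fun k => (hN1 k).measurableSet
  have hBm : ∀ k, MeasurableSet (B k) := fun k => (MeasurableSet.disjointed hNm k).inter (hA.inter hUm)
  have hBd : Pairwise (Function.onFun Disjoint B) := by
    intro i j hij
    exact (disjoint_disjointed N hij).mono inter_subset_left inter_subset_left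
  have hBU : ⋃ k, B k = A ∩ U := by
    rw [← iUnion_inter, iUnion_disjointed]
    exact inter_eq_right.2 (inter_subset_right.trans hN3)
  have hBinj : ∀ k, InjOn (fun z => p.eval z) (B k) := fun k =>
    (hN2 k).mono (inter_subset_left.trans (disjointed_subset N k))
  have hder : ∀ z : ℂ, HasFDerivAt (fun z => p.eval z)
      (p.derivative.eval z • (1 : ℂ →L[ℝ] ℂ)) z := fun z =>
    (p.hasDerivAt z).complexToReal_fderiv
  have himg : ∀ k, ∫⁻ z in B k, ENNReal.ofReal (‖p.derivative.eval z‖ ^ 2) * g (p.eval z) =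
      ∫⁻ w in (fun z => p.eval z) '' B k, g w := by
    intro k
    rw [lintegral_image_eq_lintegral_abs_det_fderiv_mul volume (hBm k)
      (fun z _ => (hder z).hasFDerivWithinAt) (hBinj k) g]
    apply lintegral_congr
    intro z
    rw [det_smul_one, abs_of_nonneg (by positivity)]
  have himgm : ∀ k, MeasurableSet ((fun z => p.eval z) '' B k) := fun k =>
    measurable_image_of_fderivWithin (hBm k) (fun z _ => (hder z).hasFDerivWithinAt) (hBinj k)
  have hAU : ∫⁻ z in A, ENNReal.ofReal (‖p.derivative.eval z‖ ^ 2) * g (p.eval z) =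
      ∫⁻ z in A ∩ U, ENNReal.ofReal (‖p.derivative.eval z‖ ^ 2) * g (p.eval z) := by
    apply setLIntegral_congr
    have : (A ∩ U : Set ℂ) =ᵐ[volume] (A ∩ univ : Set ℂ) := by
      apply Filter.EventuallyEq.inter (Filter.EventuallyEq.refl _ _)
      exact Filter.eventuallyEq_univ.2 (mem_ae_iff.2 hUc)
    rw [inter_univ] at this
    exact this.symm
  rw [hAU, ← hBU, lintegral_iUnion hBm hBd]
  calc ∑' k, ∫⁻ z in B k, ENNReal.ofReal (‖p.derivative.eval z‖ ^ 2) * g (p.eval z)
      = ∑' k, ∫⁻ w, ((fun z => p.eval z) '' B k).indicator g w := by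
        apply tsum_congr
        intro k
        rw [himg k, lintegral_indicator (himgm k)]
    _ = ∫⁻ w, ∑' k, ((fun z => p.eval z) '' B k).indicator g w := by
        rw [lintegral_tsum]
        intro k
        exact (hg.indicator (himgm k)).aemeasurable
    _ ≤ ∫⁻ w, (p.natDegree : ℝ≥0∞) * g w :=
        lintegral_mono fun w => sum_indicator_le p hp B hBd g w
    _ = (p.natDegree : ℝ≥0∞) * ∫⁻ w, g w := lintegral_const_mul _ hg

end AREAM

open AREAM in
/-- The spherical area: `∫_A (|p'| / (1 + |p|²))² ≤ π n`. -/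
theorem lint_sph_sq (p : ℂ[X]) (A : Set ℂ) (hA : MeasurableSet A) :
    ∫⁻ z in A, ENNReal.ofReal (sph p z ^ 2) ≤ ENNReal.ofReal (Real.pi * p.natDegree) := by
  rcases Nat.eq_zero_or_pos p.natDegree with h0 | hp
  · have hd : p.derivative = 0 := by
      rw [eq_C_of_natDegree_eq_zero h0, derivative_C]
    have : ∀ z, sph p z = 0 := by
      intro z
      unfold sph
      rw [hd]
      simp
    simp [this]
  · have h := lint_le p hp A hA (fun w => ENNReal.ofReal (1 / (1 + ‖w‖ ^ 2) ^ 2))
      (by fun_prop)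
    rw [lint_sphere] at h
    calc ∫⁻ z in A, ENNReal.ofReal (sph p z ^ 2)
        = ∫⁻ z in A, ENNReal.ofReal (‖p.derivative.eval z‖ ^ 2) *
            ENNReal.ofReal (1 / (1 + ‖p.eval z‖ ^ 2) ^ 2) := by
          apply lintegral_congr
          intro z
          rw [← ENNReal.ofReal_mul (by positivity)]
          congr 1
          unfold sph
          rw [div_pow]
          ring
      _ ≤ (p.natDegree : ℝ≥0∞) * ENNReal.ofReal Real.pi := h
      _ = ENNReal.ofReal (Real.pi * p.natDegree) := by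
          rw [mul_comm, ENNReal.ofReal_mul Real.pi_pos.le, ENNReal.ofReal_natCast]

end Pool.Agent.Lib.MP684ec1.HP
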