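import Pool.Agent.Lib.MP_684ec1_an.HP.FIN
import Pool.Agent.Lib.MP_684ec1_an.HP.AREA

/-!
# MP_684ec1, module STR: zeros in a strip or in an intersection of half-planes
-/

set_option autoImplicit false

namespace Pool.Agent.Lib.MP684ec1.HP

open Complex Polynomial MeasureTheory Set
open scoped ENNReal

namespace STRM

/-- Cauchy-Schwarz and the spherical area. -/
lemma cs (p : ℂ[X]) (S : Set ℂ) (hS : MeasurableSet S) (hSD : S ⊆ Metric.closedBall (0 : ℂ) 1) :
    ∫ z in S, sph p z ≤ Real.sqrt (Real.pi * p.natDegree * (volume S).toReal) := by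
  have hfin : volume S ≠ ⊤ :=
    ne_top_of_le_ne_top (measure_closedBall_lt_top (x := (0 : ℂ)) (r := 1)).ne (measure_mono hSD)
  have hi1 : IntegrableOn (sph p) S := FINM.sph_int p 0 1 hSD
  have hi2 : IntegrableOn (fun z => sph p z ^ 2) S :=
    (((FINM.sph_cont p).pow 2).continuousOn.integrableOn_compact
      (isCompact_closedBall (0 : ℂ) 1)).mono_set hSD
  have hA : ∫ z in S, sph p z ^ 2 ≤ Real.pi * p.natDegree := by
    have h1 := lint_sph_sq p S hS
    rw [← ofReal_integral_eq_lintegral_ofReal hi2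
      (Filter.Eventually.of_forall fun z => sq_nonneg _)] at h1
    exact (ENNReal.ofReal_le_ofReal_iff (by positivity)).1 h1
  set J := ∫ z in S, sph p z with hJ
  set B := (volume S).toReal with hB
  have hB0 : 0 ≤ B := ENNReal.toReal_nonneg
  rcases hB0.eq_or_lt with hB1 | hB1
  · have hv : volume S = 0 := by
      rcases (ENNReal.toReal_eq_zero_iff _).1 hB1.symm with h | h
      · exact h
      · exact absurd h hfin
    have : J = 0 := by
      rw [hJ, Measure.restrict_eq_zero.2 hv, integral_zero_measure]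
    rw [this]
    exact Real.sqrt_nonneg _
  · apply Real.le_sqrt_of_sq_le
    have h2 : 0 ≤ ∫ z in S, (sph p z - J / B) ^ 2 := integral_nonneg fun z => sq_nonneg _
    have h3 : ∫ z in S, (sph p z - J / B) ^ 2
        = (∫ z in S, sph p z ^ 2) - 2 * (J / B) * J + (J / B) ^ 2 * B := by
      have e1 : ∀ z, (sph p z - J / B) ^ 2 = sph p z ^ 2 - 2 * (J / B) * sph p z + (J / B) ^ 2 := by
        intro z
        ring
      simp_rw [e1]
      rw [integral_add, integral_sub, integral_const_mul, setIntegral_const, smul_eq_mul,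
        Measure.real, ← hB]
      · ring
      · exact hi2
      · exact hi1.const_mul _
      · exact hi2.sub (hi1.const_mul _)
      · exact integrableOn_const hfin
    rw [h3] at h2
    have h4 : (J / B) ^ 2 * B = J ^ 2 / B := by
      field_simp
    have h5 : 2 * (J / B) * J = 2 * (J ^ 2 / B) := by
      field_simp
    rw [h4, h5] at h2
    have h6 : J ^ 2 / B ≤ Real.pi * p.natDegree := by linarith
    rwa [div_le_iff₀ hB1] at h6

/-- The part of the disc in a strip of width `w` has area at most `2 w`. -/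
lemma vol_strip (u : ℂ) (hu : ‖u‖ = 1) (α β : ℝ) :
    volume {z : ℂ | ‖z‖ ≤ 1 ∧ α ≤ (z * (starRingEnd ℂ) u).re ∧ (z * (starRingEnd ℂ) u).re ≤ β} ≤
      ENNReal.ofReal (2 * (β - α)) := by
  set v : Circle := ⟨(starRingEnd ℂ) u, mem_sphere_zero_iff_norm.2 (by
    rw [Complex.norm_conj, hu])⟩ with hv
  have hmp : MeasurePreserving (rotation v) (volume : Measure ℂ) volume :=
    (rotation v).measurePreserving
  set Q : Set ℂ := Icc α β ×ℂ Icc (-1) 1 with hQ
  have hQm : MeasurableSet Q := (isClosed_Icc.reProdIm isClosed_Icc).measurableSet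
  calc volume {z : ℂ | ‖z‖ ≤ 1 ∧ α ≤ (z * (starRingEnd ℂ) u).re ∧
        (z * (starRingEnd ℂ) u).re ≤ β}
      ≤ volume ((rotation v) ⁻¹' Q) := by
        apply measure_mono
        intro z hz
        rw [mem_preimage, rotation_apply, hQ, mem_reProdIm]
        have h1 : (v : ℂ) * z = z * (starRingEnd ℂ) u := by
          rw [hv]
          exact mul_comm _ _
        rw [h1]
        refine ⟨⟨hz.2.1, hz.2.2⟩, ?_⟩
        have h2 := Complex.abs_im_le_norm (z * (starRingEnd ℂ) u)
        rw [norm_mul, Complex.norm_conj, hu, mul_one] at h2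
        exact abs_le.1 (h2.trans hz.1)
    _ = volume Q := hmp.measure_preimage hQm.nullMeasurableSet
    _ = volume ((Icc α β) ×ˢ (Icc (-1 : ℝ) 1)) := by
        have h3 : Q = Complex.measurableEquivRealProd ⁻¹' ((Icc α β) ×ˢ (Icc (-1 : ℝ) 1)) := by
          ext z
          rw [hQ, mem_reProdIm, mem_preimage, Complex.measurableEquivRealProd_apply, mem_prod]
        rw [h3, Complex.volume_preserving_equiv_real_prod.measure_preimage
          (measurableSet_Icc.prod measurableSet_Icc).nullMeasurableSet]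
    _ = ENNReal.ofReal (2 * (β - α)) := by
        rw [Measure.volume_eq_prod, Measure.prod_prod, Real.volume_Icc, Real.volume_Icc,
          mul_comm, ← ENNReal.ofReal_mul (by norm_num)]
        norm_num

lemma meas_half (u : ℂ) (c : ℝ) :
    MeasurableSet {z : ℂ | ‖z‖ ≤ 1 ∧ c ≤ (z * (starRingEnd ℂ) u).re} := by
  apply MeasurableSet.inter
  · exact measurableSet_le measurable_norm measurable_const
  · exact measurableSet_le measurable_const
      (Complex.measurable_re.comp (measurable_id.mul measurable_const))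

lemma half_sub (u : ℂ) (c : ℝ) :
    {z : ℂ | ‖z‖ ≤ 1 ∧ c ≤ (z * (starRingEnd ℂ) u).re} ⊆ Metric.closedBall (0 : ℂ) 1 := by
  intro z hz
  rw [Metric.mem_closedBall, dist_zero_right]
  exact hz.1

/-- An integral over the disc is at most the sum of the integrals over the parts of a cover. -/
lemma cover (p : ℂ[X]) (m : ℕ) (T : Fin m → Set ℂ) (K : Set ℂ) (hK : MeasurableSet K)
    (hKD : K ⊆ Metric.closedBall (0 : ℂ) 1) (hT : ∀ i, MeasurableSet (T i))
    (hTD : ∀ i, T i ⊆ Metric.closedBall (0 : ℂ) 1)
    (hc : Metric.closedBall (0 : ℂ) 1 ⊆ K ∪ ⋃ i, T i) :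
    ∫ z in Metric.closedBall (0 : ℂ) 1, sph p z ≤
      (∫ z in K, sph p z) + ∑ i, ∫ z in T i, sph p z := by
  have hD : MeasurableSet (Metric.closedBall (0 : ℂ) 1) := Metric.isClosed_closedBall.measurableSet
  rw [← integral_indicator hD, ← integral_indicator hK,
    Finset.sum_congr rfl (fun i _ => (integral_indicator (hT i)).symm), ← integral_finsetSum,
    ← integral_add]
  · apply integral_mono
    · exact (integrable_indicator_iff hD).2 (FINM.sph_int p 0 1 subset_rfl)
    · apply Integrable.add
      · exact (integrable_indicator_iff hK).2 (FINM.sph_int p 0 1 hKD)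
      · exact integrable_finsetSum _ fun i _ =>
          (integrable_indicator_iff (hT i)).2 (FINM.sph_int p 0 1 (hTD i))
    · intro z
      show (Metric.closedBall (0 : ℂ) 1).indicator (sph p) z ≤
        K.indicator (sph p) z + ∑ i, (T i).indicator (sph p) z
      have hn : ∀ S : Set ℂ, 0 ≤ S.indicator (sph p) z := fun S =>
        indicator_nonneg (fun z _ => FINM.sph_nonneg p z) z
      have hs : 0 ≤ ∑ i, (T i).indicator (sph p) z := Finset.sum_nonneg fun i _ => hn _
      by_cases hz : z ∈ Metric.closedBall (0 : ℂ) 1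
      · rw [indicator_of_mem hz]
        rcases hc hz with h | h
        · rw [indicator_of_mem h]
          linarith
        · rw [mem_iUnion] at h
          obtain ⟨i, hi⟩ := h
          have h1 : (T i).indicator (sph p) z ≤ ∑ i, (T i).indicator (sph p) z :=
            Finset.single_le_sum (f := fun i => (T i).indicator (sph p) z) (fun i _ => hn _)
              (Finset.mem_univ i)
          rw [indicator_of_mem hi] at h1
          have := hn K
          linarith
      · rw [indicator_of_notMem hz]
        have := hn K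
        linarith
  · exact (integrable_indicator_iff hK).2 (FINM.sph_int p 0 1 hKD)
  · exact integrable_finsetSum _ fun i _ =>
      (integrable_indicator_iff (hT i)).2 (FINM.sph_int p 0 1 (hTD i))
  · exact fun i _ => (integrable_indicator_iff (hT i)).2 (FINM.sph_int p 0 1 (hTD i))

end STRM

open STRM in
/-- **Intersections of `m` half-planes.** -/
theorem polygon (hAFF : SpecAFF) (p : ℂ[X]) (m : ℕ) (u : Fin m → ℂ) (c : Fin m → ℝ)
    (hu : ∀ i, ‖u i‖ = 1)
    (hz : ∀ z : ℂ, p.eval z = 0 → ∀ i, (z * (starRingEnd ℂ) (u i)).re ≤ c i) :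
    ∫ z in Metric.closedBall (0 : ℂ) 1, sph p z ≤
      6 * Real.pi * m + Real.sqrt (Real.pi * p.natDegree *
        (volume {z : ℂ | ‖z‖ ≤ 1 ∧ ∀ i, (z * (starRingEnd ℂ) (u i)).re ≤ c i}).toReal) := by
  set K : Set ℂ := {z : ℂ | ‖z‖ ≤ 1 ∧ ∀ i, (z * (starRingEnd ℂ) (u i)).re ≤ c i} with hK
  have hKm : MeasurableSet K := by
    apply MeasurableSet.inter
    · exact measurableSet_le measurable_norm measurable_const
    · have : {z : ℂ | ∀ i, (z * (starRingEnd ℂ) (u i)).re ≤ c i} =
          ⋂ i, {z : ℂ | (z * (starRingEnd ℂ) (u i)).re ≤ c i} := by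
        ext z
        simp
      have h' : MeasurableSet {z : ℂ | ∀ i, (z * (starRingEnd ℂ) (u i)).re ≤ c i} := by
        rw [this]
        exact MeasurableSet.iInter fun i => measurableSet_le
          (Complex.measurable_re.comp (measurable_id.mul measurable_const)) measurable_const
      exact h'
  have hKD : K ⊆ Metric.closedBall (0 : ℂ) 1 := by
    intro z hz'
    rw [Metric.mem_closedBall, dist_zero_right]
    exact hz'.1
  have h := cover p m (fun i => {z : ℂ | ‖z‖ ≤ 1 ∧ c i ≤ (z * (starRingEnd ℂ) (u i)).re}) K hKm hKD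
    (fun i => meas_half (u i) (c i)) (fun i => half_sub (u i) (c i)) (by
      intro z hz'
      rw [Metric.mem_closedBall, dist_zero_right] at hz'
      by_cases h1 : ∀ i, (z * (starRingEnd ℂ) (u i)).re ≤ c i
      · exact Or.inl ⟨hz', h1⟩
      · right
        push Not at h1
        obtain ⟨i, hi⟩ := h1
        rw [mem_iUnion]
        exact ⟨i, hz', hi.le⟩)
  have h2 : ∑ i : Fin m, ∫ z in {z : ℂ | ‖z‖ ≤ 1 ∧ c i ≤ (z * (starRingEnd ℂ) (u i)).re}, sph p z
      ≤ 6 * Real.pi * m := by
    calc ∑ i : Fin m, ∫ z in {z : ℂ | ‖z‖ ≤ 1 ∧ c i ≤ (z * (starRingEnd ℂ) (u i)).re}, sph p z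
        ≤ ∑ _i : Fin m, 6 * Real.pi := Finset.sum_le_sum fun i _ =>
          FINM.big hAFF p (u i) (c i) (hu i) (fun z h => hz z h i)
      _ = 6 * Real.pi * m := by
          rw [Finset.sum_const, Finset.card_univ, Fintype.card_fin, nsmul_eq_mul]
          ring
  have h3 := cs p K hKm hKD
  linarith

open STRM in
/-- **Strips.** -/
theorem strip (hAFF : SpecAFF) (p : ℂ[X]) (u : ℂ) (α β : ℝ) (hu : ‖u‖ = 1) (hαβ : α ≤ β)
    (hz : ∀ z : ℂ, p.eval z = 0 → α ≤ (z * (starRingEnd ℂ) u).re ∧
      (z * (starRingEnd ℂ) u).re ≤ β) :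
    ∫ z in Metric.closedBall (0 : ℂ) 1, sph p z ≤
      9 * Real.pi + Real.sqrt (2 * Real.pi * p.natDegree * (β - α)) := by
  have hu' : ‖-u‖ = 1 := by rw [norm_neg, hu]
  set K : Set ℂ := {z : ℂ | ‖z‖ ≤ 1 ∧ α ≤ (z * (starRingEnd ℂ) u).re ∧
    (z * (starRingEnd ℂ) u).re ≤ β} with hK
  have hKm : MeasurableSet K := by
    apply MeasurableSet.inter
    · exact measurableSet_le measurable_norm measurable_const
    · apply MeasurableSet.inter
      · exact measurableSet_le measurable_const
          (Complex.measurable_re.comp (measurable_id.mul measurable_const))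
      · exact measurableSet_le
          (Complex.measurable_re.comp (measurable_id.mul measurable_const)) measurable_const
  have hKD : K ⊆ Metric.closedBall (0 : ℂ) 1 := by
    intro z hz'
    rw [Metric.mem_closedBall, dist_zero_right]
    exact hz'.1
  set S1 : Set ℂ := {z : ℂ | ‖z‖ ≤ 1 ∧ β ≤ (z * (starRingEnd ℂ) u).re} with hS1
  set S2 : Set ℂ := {z : ℂ | ‖z‖ ≤ 1 ∧ -α ≤ (z * (starRingEnd ℂ) (-u)).re} with hS2
  have h := cover p 2 ![S1, S2] K hKm hKD
    (fun i => by fin_cases i <;> exact meas_half _ _)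
    (fun i => by fin_cases i <;> exact half_sub _ _) (by
      intro z hz'
      rw [Metric.mem_closedBall, dist_zero_right] at hz'
      by_cases h1 : α ≤ (z * (starRingEnd ℂ) u).re
      · by_cases h2 : (z * (starRingEnd ℂ) u).re ≤ β
        · exact Or.inl ⟨hz', h1, h2⟩
        · right
          rw [mem_iUnion]
          exact ⟨0, hz', (not_le.1 h2).le⟩
      · right
        rw [mem_iUnion]
        refine ⟨1, hz', ?_⟩
        rw [map_neg, mul_neg, Complex.neg_re]
        linarith [not_le.1 h1])
  rw [Fin.sum_univ_two] at h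
  have h' : ∫ z in Metric.closedBall (0 : ℂ) 1, sph p z ≤
      (∫ z in K, sph p z) + ((∫ z in S1, sph p z) + ∫ z in S2, sph p z) := h
  have hz1 : ∀ z : ℂ, p.eval z = 0 → (z * (starRingEnd ℂ) u).re ≤ β := fun z h => (hz z h).2
  have hz2 : ∀ z : ℂ, p.eval z = 0 → (z * (starRingEnd ℂ) (-u)).re ≤ -α := fun z h => by
    rw [map_neg, mul_neg, Complex.neg_re]
    linarith [(hz z h).1]
  have h12 : (∫ z in S1, sph p z) + (∫ z in S2, sph p z) ≤ 9 * Real.pi := by
    rcases le_or_gt 0 β with hb | hb
    · have e1 := FINM.small hAFF p u β hb hu hz1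
      have e2 := FINM.big hAFF p (-u) (-α) hu' hz2
      linarith
    · have e1 := FINM.big hAFF p u β hu hz1
      have e2 := FINM.small hAFF p (-u) (-α) (by linarith) hu' hz2
      linarith
  have h3 := cs p K hKm hKD
  have h4 : (volume K).toReal ≤ 2 * (β - α) := by
    have := ENNReal.toReal_mono ENNReal.ofReal_ne_top (vol_strip u hu α β)
    rwa [ENNReal.toReal_ofReal (by linarith)] at this
  have h5 : Real.sqrt (Real.pi * p.natDegree * (volume K).toReal) ≤
      Real.sqrt (2 * Real.pi * p.natDegree * (β - α)) := by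
    apply Real.sqrt_le_sqrt
    have : Real.pi * p.natDegree * (volume K).toReal ≤ Real.pi * p.natDegree * (2 * (β - α)) :=
      mul_le_mul_of_nonneg_left h4 (by positivity)
    linarith
  linarith

end Pool.Agent.Lib.MP684ec1.HP
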