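import Pool.Agent.Lib.MP_684ec1_an.HP.Spec

/-!
# MP_684ec1, HP: module ARC (the half circle)
-/

set_option autoImplicit false

namespace Pool.Agent.Lib.MP684ec1.HP

open Complex Polynomial MeasureTheory intervalIntegral

namespace ARCM

lemma pt_re (φ : ℝ) : (pt 1 φ).re = Real.cos φ := by
  unfold pt
  rw [Complex.ofReal_one, one_mul, Complex.exp_ofReal_mul_I_re]

lemma pt_im (φ : ℝ) : (pt 1 φ).im = Real.sin φ := by
  unfold pt
  rw [Complex.ofReal_one, one_mul, Complex.exp_ofReal_mul_I_im]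

lemma hasDeriv_pt (φ : ℝ) : HasDerivAt (fun φ : ℝ => pt 1 φ) (I * pt 1 φ) φ := by
  unfold pt
  have h1 : HasDerivAt (fun φ : ℝ => (φ : ℂ) * I) (1 * I) φ :=
    (Complex.ofRealCLM.hasDerivAt (x := φ)).mul_const I
  have h2 := h1.cexp
  have h3 := h2.const_mul (((1 : ℝ) : ℂ))
  have e : (((1 : ℝ) : ℂ)) * (cexp ((φ : ℂ) * I) * (1 * I)) =
      I * ((((1 : ℝ) : ℂ)) * cexp ((φ : ℂ) * I)) := by ring
  rw [e] at h3
  exact h3

/-- one term of `T / sin` -/
noncomputable def gt (a b φ : ℝ) : ℝ :=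
  (a * Real.sin φ + b * Real.cos φ) /
    (((Real.cos φ - a) ^ 2 + (Real.sin φ + b) ^ 2) * Real.sin φ)

lemma q_pos {a b φ : ℝ} (hb : 0 ≤ b) (hs : 0 < Real.sin φ) :
    0 < (Real.cos φ - a) ^ 2 + (Real.sin φ + b) ^ 2 := by
  have h : 0 < (Real.sin φ + b) ^ 2 := by positivity
  have h2 := sq_nonneg (Real.cos φ - a)
  linarith

lemma gt_deriv {a b φ : ℝ} (hb : 0 ≤ b) (hs : 0 < Real.sin φ) :
    ∃ d : ℝ, d ≤ 0 ∧ HasDerivAt (gt a b) d φ := by
  have hq := q_pos (a := a) hb hs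
  set s := Real.sin φ with hsdef
  set c := Real.cos φ with hcdef
  have h1 : HasDerivAt (fun φ : ℝ => a * Real.sin φ + b * Real.cos φ) (a * c + b * (-s)) φ :=
    ((Real.hasDerivAt_sin φ).const_mul a).add ((Real.hasDerivAt_cos φ).const_mul b)
  have h2 : HasDerivAt (fun φ : ℝ => (Real.cos φ - a) ^ 2) (2 * (c - a) * (-s)) φ := by
    have h := ((Real.hasDerivAt_cos φ).sub_const a).pow 2
    have e : ((2 : ℕ) : ℝ) * (Real.cos φ - a) ^ (2 - 1) * -Real.sin φ = 2 * (c - a) * (-s) := by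
      rw [hcdef, hsdef]; norm_num
    rw [e] at h
    exact h
  have h3 : HasDerivAt (fun φ : ℝ => (Real.sin φ + b) ^ 2) (2 * (s + b) * c) φ := by
    have h := ((Real.hasDerivAt_sin φ).add_const b).pow 2
    have e : ((2 : ℕ) : ℝ) * (Real.sin φ + b) ^ (2 - 1) * Real.cos φ = 2 * (s + b) * c := by
      rw [hcdef, hsdef]; norm_num
    rw [e] at h
    exact h
  have h4 := (h2.add h3).mul (Real.hasDerivAt_sin φ)
  have hne : ((c - a) ^ 2 + (s + b) ^ 2) * s ≠ 0 := (mul_pos hq hs).ne'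
  have h5 := h1.div h4 hne
  refine ⟨_, ?_, h5⟩
  refine div_nonpos_of_nonpos_of_nonneg ?_ (sq_nonneg _)
  have hcs : s ^ 2 + c ^ 2 = 1 := Real.sin_sq_add_cos_sq φ
  have key : (a * c + b * (-s)) * (((c - a) ^ 2 + (s + b) ^ 2) * s) -
      (a * s + b * c) * ((2 * (c - a) * (-s) + 2 * (s + b) * c) * s +
        ((c - a) ^ 2 + (s + b) ^ 2) * c) =
      -(b * ((c - a) ^ 2 + (s + b) ^ 2) + 2 * (a * s + b * c) ^ 2 * s) := by
    linear_combination (-(b * ((c - a) ^ 2 + (s + b) ^ 2))) * hcs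
  have h6 : 0 ≤ b * ((c - a) ^ 2 + (s + b) ^ 2) + 2 * (a * s + b * c) ^ 2 * s := by positivity
  have h7 := key
  simp only [Pi.add_apply, Pi.mul_apply] at *
  calc _ = (a * c + b * (-s)) * (((c - a) ^ 2 + (s + b) ^ 2) * s) -
      (a * s + b * c) * ((2 * (c - a) * (-s) + 2 * (s + b) * c) * s +
        ((c - a) ^ 2 + (s + b) ^ 2) * c) := by
        rfl
    _ ≤ 0 := by rw [key]; linarith

lemma gt_anti {a b : ℝ} (hb : 0 ≤ b) : AntitoneOn (gt a b) (Set.Ioo 0 Real.pi) := by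
  have hsin : ∀ x ∈ Set.Ioo (0 : ℝ) Real.pi, 0 < Real.sin x := fun x hx =>
    Real.sin_pos_of_pos_of_lt_pi hx.1 hx.2
  refine antitoneOn_of_deriv_nonpos (convex_Ioo 0 Real.pi) ?_ ?_ ?_
  · intro x hx
    obtain ⟨d, -, hd⟩ := gt_deriv (a := a) hb (hsin x hx)
    exact hd.continuousAt.continuousWithinAt
  · intro x hx
    rw [interior_Ioo] at hx
    obtain ⟨d, -, hd⟩ := gt_deriv (a := a) hb (hsin x hx)
    exact hd.differentiableAt.differentiableWithinAt
  · intro x hx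
    rw [interior_Ioo] at hx
    obtain ⟨d, hd0, hd⟩ := gt_deriv (a := a) hb (hsin x hx)
    rw [hd.deriv]; exact hd0

lemma term_eq {ζ : ℂ} (hζ : ζ.im ≤ 0) {φ : ℝ} (hs : 0 < Real.sin φ) :
    ((1 / (pt 1 φ - ζ)) * I * pt 1 φ).re / Real.sin φ = gt ζ.re (-ζ.im) φ := by
  have hq := q_pos (a := ζ.re) (b := -ζ.im) (by linarith) hs
  have hn : Complex.normSq (pt 1 φ - ζ) =
      (Real.cos φ - ζ.re) ^ 2 + (Real.sin φ + -ζ.im) ^ 2 := by
    rw [Complex.normSq_apply, Complex.sub_re, Complex.sub_im, pt_re, pt_im]; ring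
  have h1 : ((1 / (pt 1 φ - ζ)) * I * pt 1 φ).re =
      (ζ.re * Real.sin φ + -ζ.im * Real.cos φ) /
        ((Real.cos φ - ζ.re) ^ 2 + (Real.sin φ + -ζ.im) ^ 2) := by
    rw [← hn]
    rw [one_div, Complex.mul_re, Complex.mul_re, Complex.mul_im, Complex.inv_re, Complex.inv_im,
      Complex.I_re, Complex.I_im, Complex.sub_re, Complex.sub_im, pt_re, pt_im]
    ring
  rw [h1, div_div]
  rfl

/-- `T / sin` is nonincreasing -/
lemma sum_anti (s : Multiset ℂ) (h : ∀ ζ ∈ s, ζ.im ≤ 0) :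
    AntitoneOn (fun φ : ℝ => (((s.map (fun ζ => 1 / (pt 1 φ - ζ))).sum) * I * pt 1 φ).re /
      Real.sin φ) (Set.Ioo 0 Real.pi) := by
  induction s using Multiset.induction with
  | empty =>
    intro x _ y _ _
    simp
  | cons a s ih =>
    have h1 := ih fun ζ hζ => h ζ (Multiset.mem_cons_of_mem hζ)
    have h2 := gt_anti (a := a.re) (b := -a.im) (by
      have := h a (Multiset.mem_cons_self a s); linarith)
    have hsin : ∀ x ∈ Set.Ioo (0 : ℝ) Real.pi, 0 < Real.sin x := fun x hx =>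
      Real.sin_pos_of_pos_of_lt_pi hx.1 hx.2
    have e : ∀ x ∈ Set.Ioo (0 : ℝ) Real.pi,
        ((((a ::ₘ s).map (fun ζ => 1 / (pt 1 x - ζ))).sum) * I * pt 1 x).re / Real.sin x =
        gt a.re (-a.im) x +
          (((s.map (fun ζ => 1 / (pt 1 x - ζ))).sum) * I * pt 1 x).re / Real.sin x := by
      intro x hx
      rw [Multiset.map_cons, Multiset.sum_cons, add_mul, add_mul, Complex.add_re, add_div,
        term_eq (h a (Multiset.mem_cons_self a s)) (hsin x hx)]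
    intro x hx y hy hxy
    simp only
    rw [e x hx, e y hy]
    exact add_le_add (h2 hx hy hxy) (h1 hx hy hxy)

/-- an antitone continuous function changes sign once -/
lemma sign_cases {G : ℝ → ℝ} {α β : ℝ} (hαβ : α ≤ β) (hc : ContinuousOn G (Set.Icc α β))
    (ha : AntitoneOn G (Set.Icc α β)) :
    (∀ y ∈ Set.Icc α β, G y ≤ 0) ∨ (∀ y ∈ Set.Icc α β, 0 ≤ G y) ∨
      ∃ x ∈ Set.Icc α β, (∀ y ∈ Set.Icc α x, 0 ≤ G y) ∧ ∀ y ∈ Set.Icc x β, G y ≤ 0 := by
  have hα : α ∈ Set.Icc α β := ⟨le_refl _, hαβ⟩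
  have hβ : β ∈ Set.Icc α β := ⟨hαβ, le_refl _⟩
  by_cases h1 : G α ≤ 0
  · exact Or.inl fun y hy => (ha hα hy hy.1).trans h1
  by_cases h2 : 0 ≤ G β
  · exact Or.inr (Or.inl fun y hy => h2.trans (ha hy hβ hy.2))
  push Not at h1 h2
  obtain ⟨x, hx, hx0⟩ := intermediate_value_Icc' hαβ hc ⟨h2.le, h1.le⟩
  refine Or.inr (Or.inr ⟨x, hx, ?_, ?_⟩)
  · intro y hy
    rw [← hx0]
    exact ha ⟨hy.1, hy.2.trans hx.2⟩ hx hy.2
  · intro y hy
    rw [← hx0]
    exact ha hx ⟨hx.1.trans hy.1, hy.2⟩ hy.1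

lemma int_pos {u W : ℝ → ℝ} {a b : ℝ} (hab : a ≤ b) (hd : ∀ x ∈ Set.Icc a b, HasDerivAt W (u x) x)
    (hc : ContinuousOn u (Set.Icc a b)) (hu : ∀ x ∈ Set.Icc a b, 0 ≤ u x) :
    ∫ x in a..b, |u x| = W b - W a := by
  have h1 : ∫ x in a..b, |u x| = ∫ x in a..b, u x := by
    refine intervalIntegral.integral_congr fun x hx => ?_
    rw [Set.uIcc_of_le hab] at hx
    exact abs_of_nonneg (hu x hx)
  rw [h1]
  refine intervalIntegral.integral_eq_sub_of_hasDerivAt (fun x hx => ?_) ?_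
  · rw [Set.uIcc_of_le hab] at hx
    exact hd x hx
  · exact (hc.mono (by rw [Set.uIcc_of_le hab])).intervalIntegrable

lemma int_neg {u W : ℝ → ℝ} {a b : ℝ} (hab : a ≤ b) (hd : ∀ x ∈ Set.Icc a b, HasDerivAt W (u x) x)
    (hc : ContinuousOn u (Set.Icc a b)) (hu : ∀ x ∈ Set.Icc a b, u x ≤ 0) :
    ∫ x in a..b, |u x| = W a - W b := by
  have h := int_pos (u := fun x => -u x) (W := fun x => -W x) hab
    (fun x hx => (hd x hx).neg) hc.neg (fun x hx => by have := hu x hx; simpa using this)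
  simp only [abs_neg] at h
  rw [h]; ring

/-- the estimate -/
lemma int_abs {u W G : ℝ → ℝ} {a b : ℝ} (hab : a ≤ b)
    (hd : ∀ x ∈ Set.Icc a b, HasDerivAt W (u x) x)
    (hc : ContinuousOn u (Set.Icc a b)) (hGc : ContinuousOn G (Set.Icc a b))
    (hG : AntitoneOn G (Set.Icc a b))
    (h1 : ∀ x ∈ Set.Icc a b, 0 ≤ G x → 0 ≤ u x) (h2 : ∀ x ∈ Set.Icc a b, G x ≤ 0 → u x ≤ 0)
    (hW0 : ∀ x, 0 ≤ W x) (hW1 : ∀ x, W x ≤ Real.pi / 2) :
    ∫ x in a..b, |u x| ≤ Real.pi := by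
  have hpi := Real.pi_pos
  rcases sign_cases hab hGc hG with h | h | ⟨x, hx, hl, hr⟩
  · rw [int_neg hab hd hc fun x hx => h2 x hx (h x hx)]
    linarith [hW1 a, hW0 b]
  · rw [int_pos hab hd hc fun x hx => h1 x hx (h x hx)]
    linarith [hW1 b, hW0 a]
  · have s1 : Set.Icc a x ⊆ Set.Icc a b := Set.Icc_subset_Icc_right hx.2
    have s2 : Set.Icc x b ⊆ Set.Icc a b := Set.Icc_subset_Icc_left hx.1
    have e1 := int_pos hx.1 (fun y hy => hd y (s1 hy)) (hc.mono s1)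
      fun y hy => h1 y (s1 hy) (hl y hy)
    have e2 := int_neg hx.2 (fun y hy => hd y (s2 hy)) (hc.mono s2)
      fun y hy => h2 y (s2 hy) (hr y hy)
    have i1 : IntervalIntegrable (fun y => |u y|) volume a x :=
      ((hc.mono (by rw [Set.uIcc_of_le hx.1]; exact s1)).abs).intervalIntegrable
    have i2 : IntervalIntegrable (fun y => |u y|) volume x b :=
      ((hc.mono (by rw [Set.uIcc_of_le hx.2]; exact s2)).abs).intervalIntegrable
    rw [← intervalIntegral.integral_add_adjacent_intervals i1 i2, e1, e2]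
    linarith [hW1 x, hW0 a, hW0 b]

end ARCM

open ARCM in
theorem specARC (hLGD : SpecLGD) : SpecARC := by
  intro p hp δ hδ hδ2
  have hpi := Real.pi_pos
  have hab : δ ≤ Real.pi - δ := by linarith
  have hIoo : ∀ x ∈ Set.Icc δ (Real.pi - δ), x ∈ Set.Ioo (0 : ℝ) Real.pi := fun x hx =>
    ⟨lt_of_lt_of_le hδ hx.1, by linarith [hx.2]⟩
  have hsin : ∀ x ∈ Set.Icc δ (Real.pi - δ), 0 < Real.sin x := fun x hx =>
    Real.sin_pos_of_pos_of_lt_pi (hIoo x hx).1 (hIoo x hx).2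
  have him : ∀ x ∈ Set.Icc δ (Real.pi - δ), 0 < (pt 1 x).im := fun x hx => by
    rw [pt_im]; exact hsin x hx
  have hne : ∀ x ∈ Set.Icc δ (Real.pi - δ), p.eval (pt 1 x) ≠ 0 := fun x hx =>
    (hLGD p hp (pt 1 x) (him x hx)).1
  -- the functions
  set T : ℝ → ℝ := fun x => (lg p (pt 1 x) * I * pt 1 x).re with hTdef
  set G : ℝ → ℝ := fun x => T x / Real.sin x with hGdef
  set W : ℝ → ℝ := fun x => Wa p (pt 1 x) with hWdef
  have hu : ∀ x, ((wt p (pt 1 x) : ℂ) * lg p (pt 1 x) * I * pt 1 x).re = wt p (pt 1 x) * T x := by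
    intro x
    rw [hTdef, ← Complex.re_ofReal_mul]
    congr 1
    ring
  have hwt : ∀ x, 0 ≤ wt p (pt 1 x) := fun x => by unfold wt; positivity
  -- continuity
  have hptc : Continuous fun x : ℝ => pt 1 x :=
    continuous_iff_continuousAt.2 fun x => (hasDeriv_pt x).continuousAt
  have hpc : Continuous fun x : ℝ => p.eval (pt 1 x) := p.continuous.comp hptc
  have hpc' : Continuous fun x : ℝ => p.derivative.eval (pt 1 x) := p.derivative.continuous.comp hptc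
  have hwc : Continuous fun x : ℝ => wt p (pt 1 x) := by
    unfold wt
    refine hpc.norm.div (by fun_prop) fun x => ?_
    positivity
  have hlgc : ContinuousOn (fun x : ℝ => lg p (pt 1 x)) (Set.Icc δ (Real.pi - δ)) := by
    unfold lg
    exact hpc'.continuousOn.div hpc.continuousOn hne
  have hTc : ContinuousOn T (Set.Icc δ (Real.pi - δ)) := by
    rw [hTdef]
    exact Complex.continuous_re.comp_continuousOn
      ((hlgc.mul continuousOn_const).mul hptc.continuousOn)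
  have hGc : ContinuousOn G (Set.Icc δ (Real.pi - δ)) :=
    hTc.div Real.continuous_sin.continuousOn fun x hx => (hsin x hx).ne'
  have huc : ContinuousOn (fun x => wt p (pt 1 x) * T x) (Set.Icc δ (Real.pi - δ)) :=
    hwc.continuousOn.mul hTc
  -- monotonicity
  have hroots : ∀ ζ ∈ p.roots, ζ.im ≤ 0 := fun ζ hζ =>
    hp.2 ζ ((Polynomial.mem_roots'.1 hζ).2)
  have hanti := sum_anti p.roots hroots
  have hGa : AntitoneOn G (Set.Icc δ (Real.pi - δ)) := by
    intro x hx y hy hxy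
    have e : ∀ z ∈ Set.Icc δ (Real.pi - δ), G z =
        (((p.roots.map (fun ζ => 1 / (pt 1 z - ζ))).sum) * I * pt 1 z).re / Real.sin z := by
      intro z hz
      have h1 := (IsAlgClosed.splits p).eval_derivative_div_eval_of_ne_zero (hne z hz)
      simp only [hGdef, hTdef, lg]
      rw [h1]
    rw [e x hx, e y hy]
    exact hanti (hIoo x hx) (hIoo y hy) hxy
  -- the derivative of `W`
  have hWd : ∀ x ∈ Set.Icc δ (Real.pi - δ), HasDerivAt W (wt p (pt 1 x) * T x) x := by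
    intro x hx
    have h0 := hne x hx
    have hn0 : ‖p.eval (pt 1 x)‖ ≠ 0 := norm_ne_zero_iff.2 h0
    have h1 : HasDerivAt (fun y : ℝ => p.eval (pt 1 y)) (p.derivative.eval (pt 1 x) * (I * pt 1 x)) x :=
      (p.hasDerivAt (pt 1 x)).comp_of_eq x (hasDeriv_pt x) rfl
    have h2 : HasDerivAt (fun y : ℝ => ‖p.eval (pt 1 y)‖ ^ 2)
        (2 * (inner ℝ (p.eval (pt 1 x)) (p.derivative.eval (pt 1 x) * (I * pt 1 x)))) x :=
      h1.norm_sq
    have h3 : HasDerivAt (fun y : ℝ => Real.sqrt (‖p.eval (pt 1 y)‖ ^ 2))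
        (2 * (inner ℝ (p.eval (pt 1 x)) (p.derivative.eval (pt 1 x) * (I * pt 1 x))) /
          (2 * Real.sqrt (‖p.eval (pt 1 x)‖ ^ 2))) x :=
      h2.sqrt (pow_ne_zero 2 hn0)
    have h4 : (fun y : ℝ => Real.sqrt (‖p.eval (pt 1 y)‖ ^ 2)) = fun y => ‖p.eval (pt 1 y)‖ := by
      funext y; exact Real.sqrt_sq (norm_nonneg _)
    rw [h4, Real.sqrt_sq (norm_nonneg _)] at h3
    have h5 : inner ℝ (p.eval (pt 1 x)) (p.derivative.eval (pt 1 x) * (I * pt 1 x)) =
        ‖p.eval (pt 1 x)‖ ^ 2 * T x := by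
      have e1 : p.derivative.eval (pt 1 x) * (I * pt 1 x) =
          p.eval (pt 1 x) * (lg p (pt 1 x) * I * pt 1 x) := by
        unfold lg
        field_simp
      rw [e1, hTdef, Complex.inner]
      have e2 : p.eval (pt 1 x) * (lg p (pt 1 x) * I * pt 1 x) *
          (starRingEnd ℂ) (p.eval (pt 1 x)) =
          ((‖p.eval (pt 1 x)‖ ^ 2 : ℝ) : ℂ) * (lg p (pt 1 x) * I * pt 1 x) := by
        have e3 := Complex.mul_conj (p.eval (pt 1 x))
        rw [Complex.normSq_eq_norm_sq] at e3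
        rw [← e3]; ring
      rw [e2, Complex.re_ofReal_mul]
    have h6 := h3.arctan
    have h7 : 1 / (1 + ‖p.eval (pt 1 x)‖ ^ 2) *
        (2 * (inner ℝ (p.eval (pt 1 x)) (p.derivative.eval (pt 1 x) * (I * pt 1 x))) /
          (2 * ‖p.eval (pt 1 x)‖)) = wt p (pt 1 x) * T x := by
      rw [h5]
      unfold wt
      have h8 : 1 + ‖p.eval (pt 1 x)‖ ^ 2 ≠ 0 := by positivity
      field_simp
    rw [h7] at h6
    exact h6
  have h := int_abs (u := fun x => wt p (pt 1 x) * T x) (W := W) (G := G) hab hWd huc hGc hGa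
    ?_ ?_ ?_ ?_
  · simp only [hu]
    exact h
  · intro x hx h0
    refine mul_nonneg (hwt x) ?_
    have := mul_nonneg h0 (hsin x hx).le
    rwa [hGdef, div_mul_cancel₀ _ (hsin x hx).ne'] at this
  · intro x hx h0
    refine mul_nonpos_of_nonneg_of_nonpos (hwt x) ?_
    have := mul_nonpos_of_nonpos_of_nonneg h0 (hsin x hx).le
    rwa [hGdef, div_mul_cancel₀ _ (hsin x hx).ne'] at this
  · intro x
    exact Real.arctan_nonneg.2 (norm_nonneg _)
  · intro x
    exact (Real.arctan_lt_pi_div_two _).le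

end Pool.Agent.Lib.MP684ec1.HP
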