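import Pool.Agent.Lib.MP_684ec1_an.HP.Spec

/-!
# MP_684ec1, module BDY: the integral over the box
-/

set_option autoImplicit false

namespace Pool.Agent.Lib.MP684ec1.HP

open Complex Polynomial MeasureTheory intervalIntegral

noncomputable section

namespace BDYM

lemma pt_re (r φ : ℝ) : (pt r φ).re = r * Real.cos φ := by
  unfold pt
  rw [Complex.re_ofReal_mul, Complex.exp_ofReal_mul_I_re]

lemma pt_im (r φ : ℝ) : (pt r φ).im = r * Real.sin φ := by
  unfold pt
  rw [Complex.im_ofReal_mul, Complex.exp_ofReal_mul_I_im]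

lemma norm_pt {r : ℝ} (hr : 0 ≤ r) (φ : ℝ) : ‖pt r φ‖ = r := by
  unfold pt
  rw [norm_mul, Complex.norm_exp_ofReal_mul_I, mul_one, Complex.norm_real, Real.norm_of_nonneg hr]

lemma cont_pt : Continuous (fun q : ℝ × ℝ => pt q.1 q.2) := by
  unfold pt
  fun_prop

lemma Psi_le (p : ℂ[X]) {z : ℂ} (hz : 0 ≤ z.im) : |Psi p z| ≤ z.im := by
  unfold Psi
  rw [abs_neg, abs_div, abs_mul, abs_of_nonneg hz, abs_of_nonneg (norm_nonneg (lg p z))]
  have h1 : |(lg p z).re| ≤ ‖lg p z‖ := Complex.abs_re_le_norm _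
  rcases eq_or_lt_of_le (norm_nonneg (lg p z)) with h | h
  · rw [← h, div_zero]; exact hz
  · rw [div_le_iff₀ h]
    exact mul_le_mul_of_nonneg_left h1 hz

lemma wf_eq (p : ℂ[X]) {z : ℂ} (hz : p.eval z ≠ 0) : ‖(wt p z : ℂ) * lg p z‖ = sph p z := by
  have h0 : 0 < ‖p.eval z‖ := norm_pos_iff.2 hz
  unfold wt lg sph
  rw [norm_mul, Complex.norm_real, Real.norm_of_nonneg (by positivity), norm_div]
  field_simp

lemma F_form (p : ℂ[X]) (z v : ℂ) : (Fz p z * v).re =
    -2 * Wa p z * v.re + Psi p z * ((wt p z : ℂ) * lg p z * v).re := by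
  have h : Fz p z * v = ((-2 * Wa p z : ℝ) : ℂ) * v + ((Psi p z : ℝ) : ℂ) * ((wt p z : ℂ) * lg p z * v) := by
    unfold Fz
    push_cast
    ring
  rw [h, Complex.add_re, Complex.re_ofReal_mul, Complex.re_ofReal_mul]

lemma Wa_nonneg (p : ℂ[X]) (z : ℂ) : 0 ≤ Wa p z := Real.arctan_nonneg.2 (norm_nonneg _)

lemma Wa_le (p : ℂ[X]) (z : ℂ) : Wa p z ≤ Real.pi / 2 := (Real.arctan_lt_pi_div_two _).le

lemma cont_sph (p : ℂ[X]) : Continuous (sph p) := by
  unfold sph
  refine Continuous.div ?_ ?_ ?_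
  · exact (p.derivative.continuous).norm
  · exact continuous_const.add ((p.continuous).norm.pow 2)
  · intro z; positivity

lemma int_le {f : ℝ → ℝ} {a b K : ℝ} (hab : a ≤ b) (hf : ContinuousOn f (Set.Icc a b))
    (h : ∀ x ∈ Set.Icc a b, f x ≤ K) : ∫ x in a..b, f x ≤ K * (b - a) := by
  have h1 : ∫ x in a..b, f x ≤ ∫ _ in a..b, K :=
    intervalIntegral.integral_mono_on hab (hf.intervalIntegrable_of_Icc hab)
      (continuous_const.intervalIntegrable _ _) h
  rw [intervalIntegral.integral_const, smul_eq_mul] at h1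
  linarith [h1, mul_comm K (b - a)]

lemma im_pos {ε δ r φ : ℝ} (hε : 0 < ε) (hδ : 0 < δ) (hr : r ∈ Set.Icc ε 1)
    (hφ : φ ∈ Set.Icc δ (Real.pi - δ)) : 0 < (pt r φ).im := by
  rw [pt_im]
  exact mul_pos (lt_of_lt_of_le hε hr.1)
    (Real.sin_pos_of_pos_of_lt_pi (lt_of_lt_of_le hδ hφ.1) (by linarith [hφ.2]))

end BDYM

open BDYM in
theorem specBDY (hLGD : SpecLGD) (hSMO : SpecSMO) (hPTW : SpecPTW) (hDIV : SpecDIV)
    (hARC : SpecARC) : SpecBDY := by
  intro p hp
  -- the bound `M`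
  obtain ⟨M, hM⟩ : ∃ M : ℝ, ∀ z : ℂ, ‖z‖ ≤ 1 → sph p z ≤ M := by
    obtain ⟨z₀, -, h⟩ := (isCompact_closedBall (0 : ℂ) 1).exists_isMaxOn
      ⟨0, Metric.mem_closedBall_self zero_le_one⟩ (cont_sph p).continuousOn
    exact ⟨sph p z₀, fun z hz => h (by simpa using hz)⟩
  have hM0 : 0 ≤ M := le_trans (by unfold sph; positivity) (hM 0 (by simp))
  have hpi := Real.pi_pos
  refine ⟨Real.pi * (Real.pi + M) + 2 * M, fun ε δ hε hε1 hδ hδ1 => ?_⟩
  have hδπ : δ ≤ Real.pi - δ := by linarith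
  have hUo : IsOpen {z : ℂ | 0 < z.im} := isOpen_lt continuous_const Complex.continuous_im
  have hF := hSMO p hp
  have hFc : ContinuousOn (Fz p) {z : ℂ | 0 < z.im} := hF.continuousOn
  have hDc : ContinuousOn (fderiv ℝ (Fz p)) {z : ℂ | 0 < z.im} :=
    hF.continuousOn_fderiv_of_isOpen hUo le_rfl
  -- the integrand
  set g : ℝ → ℝ → ℝ := fun r φ =>
    r * (I * (fderiv ℝ (Fz p) (pt r φ)) 1 - (fderiv ℝ (Fz p) (pt r φ)) I).re with hg
  set cr : ℝ → ℝ := fun r => max ε (min r 1) with hcr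
  set cf : ℝ → ℝ := fun φ => max δ (min φ (Real.pi - δ)) with hcf
  have hcr1 : ∀ r, cr r ∈ Set.Icc ε 1 := fun r =>
    ⟨le_max_left _ _, max_le hε1.le (min_le_right _ _)⟩
  have hcf1 : ∀ φ, cf φ ∈ Set.Icc δ (Real.pi - δ) := fun φ =>
    ⟨le_max_left _ _, max_le hδπ (min_le_right _ _)⟩
  have hcr2 : ∀ r ∈ Set.Icc ε 1, cr r = r := fun r hr => by
    rw [hcr]; simp only []; rw [min_eq_left hr.2, max_eq_right hr.1]
  have hcf2 : ∀ φ ∈ Set.Icc δ (Real.pi - δ), cf φ = φ := fun φ hφ => by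
    rw [hcf]; simp only []; rw [min_eq_left hφ.2, max_eq_right hφ.1]
  have hgc : Continuous (fun q : ℝ × ℝ => g (cr q.1) (cf q.2)) := by
    have hcrc : Continuous cr := continuous_const.max (continuous_id.min continuous_const)
    have hcfc : Continuous cf := continuous_const.max (continuous_id.min continuous_const)
    have h1 : Continuous (fun q : ℝ × ℝ => pt (cr q.1) (cf q.2)) :=
      cont_pt.comp ((hcrc.comp continuous_fst).prodMk (hcfc.comp continuous_snd))
    have h2 : Continuous (fun q : ℝ × ℝ => fderiv ℝ (Fz p) (pt (cr q.1) (cf q.2))) :=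
      hDc.comp_continuous h1 fun q => im_pos hε hδ (hcr1 _) (hcf1 _)
    rw [hg]
    exact (hcrc.comp continuous_fst).mul (Complex.continuous_re.comp
      ((continuous_const.mul (h2.clm_apply continuous_const)).sub (h2.clm_apply continuous_const)))
  have hsc : Continuous (fun q : ℝ × ℝ => q.1 * sph p (pt q.1 q.2)) :=
    continuous_fst.mul ((cont_sph p).comp cont_pt)
  -- step 1
  have step1 : (∫ φ in δ..(Real.pi - δ), ∫ r in ε..1, r * sph p (pt r φ)) ≤
      ∫ φ in δ..(Real.pi - δ), ∫ r in ε..1, g r φ := by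
    have e1 : (∫ φ in δ..(Real.pi - δ), ∫ r in ε..1, g r φ) =
        ∫ φ in δ..(Real.pi - δ), ∫ r in ε..1, g (cr r) (cf φ) := by
      refine intervalIntegral.integral_congr fun φ hφ => ?_
      rw [Set.uIcc_of_le hδπ] at hφ
      refine intervalIntegral.integral_congr fun r hr => ?_
      rw [Set.uIcc_of_le hε1.le] at hr
      show g r φ = g (cr r) (cf φ)
      rw [hcr2 r hr, hcf2 φ hφ]
    rw [e1]
    refine intervalIntegral.integral_mono_on hδπ ?_ ?_ fun φ hφ => ?_
    · refine Continuous.intervalIntegrable ?_ _ _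
      exact intervalIntegral.continuous_parametric_intervalIntegral_of_continuous'
        (f := fun φ r => r * sph p (pt r φ)) (hsc.comp continuous_swap) _ _
    · refine Continuous.intervalIntegrable ?_ _ _
      exact intervalIntegral.continuous_parametric_intervalIntegral_of_continuous'
        (f := fun φ r => g (cr r) (cf φ)) (hgc.comp continuous_swap) _ _
    · refine intervalIntegral.integral_mono_on hε1.le ?_ ?_ fun r hr => ?_
      · exact (hsc.comp (continuous_id.prodMk continuous_const)).intervalIntegrable _ _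
      · exact (hgc.comp (continuous_id.prodMk continuous_const)).intervalIntegrable _ _
      · rw [hcr2 r hr, hcf2 φ hφ, hg]
        exact mul_le_mul_of_nonneg_left (hPTW p hp _ (im_pos hε hδ hr hφ)).2 (by linarith [hr.1])
  have step2 := hDIV (Fz p) hF ε δ hε hε1 hδ hδ1
  -- general facts
  have hne : ∀ z : ℂ, 0 < z.im → p.eval z ≠ 0 := fun z hz => (hLGD p hp z hz).1
  have hwf : ∀ z v : ℂ, 0 < z.im → ‖z‖ ≤ 1 → ‖v‖ ≤ 1 → |((wt p z : ℂ) * lg p z * v).re| ≤ M := by
    intro z v hz hz1 hv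
    refine (Complex.abs_re_le_norm _).trans ?_
    rw [norm_mul, wf_eq p (hne z hz)]
    calc sph p z * ‖v‖ ≤ sph p z * 1 := mul_le_mul_of_nonneg_left hv (by unfold sph; positivity)
      _ ≤ M := by rw [mul_one]; exact hM z hz1
  have h1mem : (1 : ℝ) ∈ Set.Icc ε 1 := ⟨hε1.le, le_rfl⟩
  have hεmem : ε ∈ Set.Icc ε 1 := ⟨le_rfl, hε1.le⟩
  have hδmem : δ ∈ Set.Icc δ (Real.pi - δ) := ⟨le_rfl, hδπ⟩
  have hδmem' : Real.pi - δ ∈ Set.Icc δ (Real.pi - δ) := ⟨hδπ, le_rfl⟩
  have hcφ : ∀ r ∈ Set.Icc ε 1, ContinuousOn (fun φ => Fz p (pt r φ)) (Set.Icc δ (Real.pi - δ)) := by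
    intro r hr
    refine hFc.comp (cont_pt.comp (continuous_const.prodMk continuous_id)).continuousOn ?_
    intro φ hφ
    exact im_pos hε hδ hr hφ
  have hcr' : ∀ φ ∈ Set.Icc δ (Real.pi - δ), ContinuousOn (fun r => Fz p (pt r φ)) (Set.Icc ε 1) := by
    intro φ hφ
    refine hFc.comp (cont_pt.comp (continuous_id.prodMk continuous_const)).continuousOn ?_
    intro r hr
    exact im_pos hε hδ hr hφ
  have hptc : ∀ r : ℝ, Continuous (fun φ => pt r φ) := fun r =>
    cont_pt.comp (continuous_const.prodMk continuous_id)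
  -- the half circle
  have b1 : (∫ φ in δ..(Real.pi - δ), (Fz p (pt 1 φ) * I * pt 1 φ).re) ≤ 3 * Real.pi := by
    have hlgc : ContinuousOn (lg p) {z : ℂ | 0 < z.im} := by
      intro z hz
      obtain ⟨-, -, f', hf', -⟩ := hLGD p hp z hz
      exact hf'.continuousAt.continuousWithinAt
    have hwtc : Continuous (wt p) := by
      unfold wt
      refine Continuous.div (p.continuous).norm (continuous_const.add ((p.continuous).norm.pow 2)) ?_
      intro z; positivity
    have habs : ContinuousOn (fun φ : ℝ => |((wt p (pt 1 φ) : ℂ) * lg p (pt 1 φ) * I * pt 1 φ).re|)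
        (Set.Icc δ (Real.pi - δ)) := by
      refine ContinuousOn.abs (Complex.continuous_re.comp_continuousOn ?_)
      refine ContinuousOn.mul (ContinuousOn.mul (ContinuousOn.mul ?_ ?_) continuousOn_const)
        (hptc 1).continuousOn
      · exact (Complex.continuous_ofReal.comp (hwtc.comp (hptc 1))).continuousOn
      · exact hlgc.comp (hptc 1).continuousOn fun φ hφ => im_pos hε hδ h1mem hφ
    have hmono : (∫ φ in δ..(Real.pi - δ), (Fz p (pt 1 φ) * I * pt 1 φ).re) ≤
        ∫ φ in δ..(Real.pi - δ), (Real.pi * Real.sin φ +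
          |((wt p (pt 1 φ) : ℂ) * lg p (pt 1 φ) * I * pt 1 φ).re|) := by
      refine intervalIntegral.integral_mono_on hδπ ?_ ?_ fun φ hφ => ?_
      · refine ContinuousOn.intervalIntegrable_of_Icc hδπ (Complex.continuous_re.comp_continuousOn ?_)
        exact ((hcφ 1 h1mem).mul continuousOn_const).mul (hptc 1).continuousOn
      · refine ContinuousOn.intervalIntegrable_of_Icc hδπ (ContinuousOn.add ?_ habs)
        exact (continuous_const.mul Real.continuous_sin).continuousOn
      · have him := im_pos hε hδ h1mem hφ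
        have hs : 0 < Real.sin φ := by rw [pt_im, one_mul] at him; exact him
        have hv : (I * pt 1 φ).re = - Real.sin φ := by
          rw [Complex.I_mul_re, pt_im, one_mul]
        rw [mul_assoc, F_form, hv]
        have h2 : |Psi p (pt 1 φ)| ≤ 1 := by
          refine (Psi_le p him.le).trans ?_
          rw [pt_im, one_mul]; exact Real.sin_le_one φ
        have h3 : Psi p (pt 1 φ) * ((wt p (pt 1 φ) : ℂ) * lg p (pt 1 φ) * (I * pt 1 φ)).re ≤
            |((wt p (pt 1 φ) : ℂ) * lg p (pt 1 φ) * I * pt 1 φ).re| := by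
          rw [← mul_assoc ((wt p (pt 1 φ) : ℂ) * lg p (pt 1 φ)) I (pt 1 φ)]
          refine (le_abs_self _).trans ?_
          rw [abs_mul]
          calc _ ≤ 1 * |((wt p (pt 1 φ) : ℂ) * lg p (pt 1 φ) * I * pt 1 φ).re| :=
                mul_le_mul_of_nonneg_right h2 (abs_nonneg _)
            _ = _ := one_mul _
        have h4 : -2 * Wa p (pt 1 φ) * -Real.sin φ ≤ Real.pi * Real.sin φ := by
          have := mul_le_mul_of_nonneg_right (Wa_le p (pt 1 φ)) hs.le
          nlinarith
        linarith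
    refine hmono.trans ?_
    have hi1 : IntervalIntegrable (fun φ : ℝ => Real.pi * Real.sin φ) volume δ (Real.pi - δ) :=
      (continuous_const.mul Real.continuous_sin).intervalIntegrable _ _
    rw [intervalIntegral.integral_add hi1 (habs.intervalIntegrable_of_Icc hδπ),
      intervalIntegral.integral_const_mul, integral_sin]
    have h5 := hARC p hp δ hδ hδ1
    have h6 : Real.cos δ - Real.cos (Real.pi - δ) ≤ 2 := by
      linarith [Real.cos_le_one δ, Real.neg_one_le_cos (Real.pi - δ)]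
    have h7 := mul_le_mul_of_nonneg_left h6 hpi.le
    linarith
  -- the small half circle
  have b2 : -(∫ φ in δ..(Real.pi - δ), (Fz p (pt ε φ) * I * pt ε φ).re) ≤
      ε * (Real.pi * (Real.pi + M)) := by
    have h1 : ‖∫ φ in δ..(Real.pi - δ), (Fz p (pt ε φ) * I * pt ε φ).re‖ ≤
        (ε * (Real.pi + M)) * |Real.pi - δ - δ| := by
      refine intervalIntegral.norm_integral_le_of_norm_le_const fun φ hφ => ?_
      rw [Set.uIoc_of_le hδπ] at hφ
      have hφ' : φ ∈ Set.Icc δ (Real.pi - δ) := ⟨hφ.1.le, hφ.2⟩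
      have him := im_pos hε hδ hεmem hφ'
      rw [Real.norm_eq_abs]
      refine (Complex.abs_re_le_norm _).trans ?_
      rw [mul_assoc, norm_mul, norm_mul, Complex.norm_I, one_mul, norm_pt hε.le, mul_comm]
      refine mul_le_mul_of_nonneg_left ?_ hε.le
      have hz1 : ‖pt ε φ‖ ≤ 1 := by rw [norm_pt hε.le]; exact hε1.le
      have him1 : (pt ε φ).im ≤ 1 := (Complex.im_le_norm _).trans hz1
      unfold Fz
      refine (norm_add_le _ _).trans (add_le_add ?_ ?_)
      · rw [norm_mul, norm_neg, Complex.norm_real, Real.norm_of_nonneg (Wa_nonneg p _)]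
        have := Wa_le p (pt ε φ)
        simp only [Complex.norm_ofNat]
        linarith
      · rw [mul_assoc, norm_mul, wf_eq p (hne _ him), Complex.norm_real, Real.norm_eq_abs]
        calc |Psi p (pt ε φ)| * sph p (pt ε φ) ≤ 1 * M :=
              mul_le_mul ((Psi_le p him.le).trans him1) (hM _ hz1) (by unfold sph; positivity) zero_le_one
          _ = M := one_mul M
    have h2 : |Real.pi - δ - δ| ≤ Real.pi := by rw [abs_of_nonneg (by linarith)]; linarith
    have h3 : (ε * (Real.pi + M)) * |Real.pi - δ - δ| ≤ (ε * (Real.pi + M)) * Real.pi :=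
      mul_le_mul_of_nonneg_left h2 (by positivity)
    have h4 := neg_le_abs (∫ φ in δ..(Real.pi - δ), (Fz p (pt ε φ) * I * pt ε φ).re)
    rw [Real.norm_eq_abs] at h1
    calc _ ≤ _ := h4
      _ ≤ _ := h1
      _ ≤ _ := h3
      _ = _ := by ring
  have hsin : Real.sin δ ≤ δ := Real.sin_le hδ.le
  -- the two segments
  have hcosδ : 0 ≤ Real.cos δ := Real.cos_nonneg_of_neg_pi_div_two_le_of_le (by linarith) hδ1.le
  have hseg : ∀ φ ∈ Set.Icc δ (Real.pi - δ), Real.sin φ = Real.sin δ → ∀ r ∈ Set.Icc ε 1,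
      |Psi p (pt r φ) * ((wt p (pt r φ) : ℂ) * lg p (pt r φ) * pt 1 φ).re| ≤ M * δ := by
    intro φ hφ hsφ r hr
    have him := im_pos hε hδ hr hφ
    have hr0 : 0 ≤ r := by linarith [hr.1]
    rw [abs_mul]
    have h1 : |Psi p (pt r φ)| ≤ δ := by
      refine (Psi_le p him.le).trans ?_
      rw [pt_im, hsφ]
      have h2 : 0 ≤ Real.sin δ := Real.sin_nonneg_of_nonneg_of_le_pi hδ.le (by linarith)
      calc r * Real.sin δ ≤ 1 * Real.sin δ := mul_le_mul_of_nonneg_right hr.2 h2
        _ ≤ δ := by rw [one_mul]; exact hsin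
    have h3 := hwf (pt r φ) (pt 1 φ) him (by rw [norm_pt hr0]; exact hr.2)
      (by rw [norm_pt zero_le_one])
    calc _ ≤ δ * M := mul_le_mul h1 h3 (abs_nonneg _) hδ.le
      _ = M * δ := mul_comm _ _
  have b3 : -(∫ r in ε..1, (Fz p (pt r (Real.pi - δ)) * pt 1 (Real.pi - δ)).re) ≤ M * δ := by
    rw [← intervalIntegral.integral_neg]
    refine (int_le hε1.le (K := M * δ) ?_ fun r hr => ?_).trans ?_
    · refine ContinuousOn.neg (Complex.continuous_re.comp_continuousOn ?_)
      exact (hcr' _ hδmem').mul continuousOn_const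
    · rw [F_form, pt_re, one_mul, Real.cos_pi_sub]
      have h1 := hseg _ hδmem' (Real.sin_pi_sub δ) r hr
      have h2 := neg_abs_le (Psi p (pt r (Real.pi - δ)) *
        ((wt p (pt r (Real.pi - δ)) : ℂ) * lg p (pt r (Real.pi - δ)) * pt 1 (Real.pi - δ)).re)
      have h3 : 0 ≤ Wa p (pt r (Real.pi - δ)) * Real.cos δ := mul_nonneg (Wa_nonneg p _) hcosδ
      nlinarith
    · have : M * δ * (1 - ε) ≤ M * δ * 1 := mul_le_mul_of_nonneg_left (by linarith) (by positivity)
      linarith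
  have b4 : (∫ r in ε..1, (Fz p (pt r δ) * pt 1 δ).re) ≤ M * δ := by
    refine (int_le hε1.le (K := M * δ) ?_ fun r hr => ?_).trans ?_
    · exact Complex.continuous_re.comp_continuousOn ((hcr' _ hδmem).mul continuousOn_const)
    · rw [F_form, pt_re, one_mul]
      have h1 := hseg _ hδmem rfl r hr
      have h2 := le_abs_self (Psi p (pt r δ) * ((wt p (pt r δ) : ℂ) * lg p (pt r δ) * pt 1 δ).re)
      have h3 : 0 ≤ Wa p (pt r δ) * Real.cos δ := mul_nonneg (Wa_nonneg p _) hcosδ
      nlinarith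
    · have : M * δ * (1 - ε) ≤ M * δ * 1 := mul_le_mul_of_nonneg_left (by linarith) (by positivity)
      linarith
  have step2' : (∫ φ in δ..(Real.pi - δ), ∫ r in ε..1, g r φ) =
      (∫ φ in δ..(Real.pi - δ), (Fz p (pt 1 φ) * I * pt 1 φ).re)
      - (∫ φ in δ..(Real.pi - δ), (Fz p (pt ε φ) * I * pt ε φ).re)
      - (∫ r in ε..1, (Fz p (pt r (Real.pi - δ)) * pt 1 (Real.pi - δ)).re)
      + ∫ r in ε..1, (Fz p (pt r δ) * pt 1 δ).re := step2
  have hfin : ε * (Real.pi * (Real.pi + M)) + M * δ + M * δ ≤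
      (Real.pi * (Real.pi + M) + 2 * M) * (ε + δ) := by
    have h1 : 0 ≤ Real.pi * (Real.pi + M) * δ := by positivity
    have h2 : 0 ≤ 2 * M * ε := by positivity
    nlinarith
  linarith

end

end Pool.Agent.Lib.MP684ec1.HP
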