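import Pool.Agent.Lib.MP_684ec1_an.HP.Spec

/-!
# MP_684ec1: Stokes in polar coordinates on a box (module DIV)
-/

set_option autoImplicit false

namespace Pool.Agent.Lib.MP684ec1.HP

open Complex Polynomial MeasureTheory intervalIntegral

namespace DIVM

/-- the derivative of polar coordinates, `q = (φ, r)` -/
noncomputable def P' (q : ℝ × ℝ) : ℝ × ℝ →L[ℝ] ℂ :=
  (ContinuousLinearMap.snd ℝ ℝ ℝ).smulRight (pt 1 q.1) +
    (ContinuousLinearMap.fst ℝ ℝ ℝ).smulRight (I * pt q.2 q.1)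

/-- the derivative of `(φ, r) ↦ e^(iφ)` -/
noncomputable def E' (q : ℝ × ℝ) : ℝ × ℝ →L[ℝ] ℂ :=
  (ContinuousLinearMap.fst ℝ ℝ ℝ).smulRight (I * pt 1 q.1)

lemma hasFDerivAt_E (q : ℝ × ℝ) : HasFDerivAt (fun q : ℝ × ℝ => pt 1 q.1) (E' q) q := by
  have h1 : HasFDerivAt (fun q : ℝ × ℝ => (q.1 : ℂ)) (Complex.ofRealCLM.comp
      (ContinuousLinearMap.fst ℝ ℝ ℝ)) q :=
    Complex.ofRealCLM.hasFDerivAt.comp q hasFDerivAt_fst
  have h2 : HasFDerivAt (fun q : ℝ × ℝ => exp ((q.1 : ℂ) * I)) _ q := (h1.mul_const I).cexp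
  have h3 : HasFDerivAt (fun q : ℝ × ℝ => ((1 : ℝ) : ℂ) * exp ((q.1 : ℂ) * I)) _ q :=
    h2.const_mul ((1 : ℝ) : ℂ)
  refine h3.congr_fderiv ?_
  ext <;> simp [E', pt] <;> ring

lemma hasFDerivAt_P (q : ℝ × ℝ) : HasFDerivAt (fun q : ℝ × ℝ => pt q.2 q.1) (P' q) q := by
  have h1 : HasFDerivAt (fun q : ℝ × ℝ => (q.1 : ℂ)) (Complex.ofRealCLM.comp
      (ContinuousLinearMap.fst ℝ ℝ ℝ)) q :=
    Complex.ofRealCLM.hasFDerivAt.comp q hasFDerivAt_fst
  have h0 : HasFDerivAt (fun q : ℝ × ℝ => (q.2 : ℂ)) (Complex.ofRealCLM.comp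
      (ContinuousLinearMap.snd ℝ ℝ ℝ)) q :=
    Complex.ofRealCLM.hasFDerivAt.comp q hasFDerivAt_snd
  have h2 : HasFDerivAt (fun q : ℝ × ℝ => exp ((q.1 : ℂ) * I)) _ q := (h1.mul_const I).cexp
  have h3 : HasFDerivAt (fun q : ℝ × ℝ => (q.2 : ℂ) * exp ((q.1 : ℂ) * I)) _ q := h0.mul h2
  refine h3.congr_fderiv ?_
  ext <;> simp [P', pt] <;> ring

/-- the coefficient `- Re (F e^(iφ))` -/
noncomputable def f (F : ℂ → ℂ) (q : ℝ × ℝ) : ℝ := -(F (pt q.2 q.1) * pt 1 q.1).re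

/-- the coefficient `Re (F i r e^(iφ))` -/
noncomputable def g (F : ℂ → ℂ) (q : ℝ × ℝ) : ℝ := (F (pt q.2 q.1) * I * pt q.2 q.1).re

/-- the derivative of `f` -/
noncomputable def f' (F : ℂ → ℂ) (q : ℝ × ℝ) : ℝ × ℝ →L[ℝ] ℝ :=
  -(Complex.reCLM.comp (F (pt q.2 q.1) • E' q +
    pt 1 q.1 • (fderiv ℝ F (pt q.2 q.1)).comp (P' q)))

/-- the derivative of `g` -/
noncomputable def g' (F : ℂ → ℂ) (q : ℝ × ℝ) : ℝ × ℝ →L[ℝ] ℝ :=
  Complex.reCLM.comp ((F (pt q.2 q.1) * I) • P' q +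
    pt q.2 q.1 • I • (fderiv ℝ F (pt q.2 q.1)).comp (P' q))

lemma hasFDerivAt_f (F : ℂ → ℂ) (q : ℝ × ℝ) (hF : DifferentiableAt ℝ F (pt q.2 q.1)) :
    HasFDerivAt (f F) (f' F q) q := by
  have h1 : HasFDerivAt (fun q : ℝ × ℝ => F (pt q.2 q.1))
      ((fderiv ℝ F (pt q.2 q.1)).comp (P' q)) q :=
    HasFDerivAt.comp q hF.hasFDerivAt (hasFDerivAt_P q)
  have h2 := h1.mul (hasFDerivAt_E q)
  exact (Complex.reCLM.hasFDerivAt.comp q h2).neg

lemma hasFDerivAt_g (F : ℂ → ℂ) (q : ℝ × ℝ) (hF : DifferentiableAt ℝ F (pt q.2 q.1)) :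
    HasFDerivAt (g F) (g' F q) q := by
  have h1 : HasFDerivAt (fun q : ℝ × ℝ => F (pt q.2 q.1))
      ((fderiv ℝ F (pt q.2 q.1)).comp (P' q)) q :=
    HasFDerivAt.comp q hF.hasFDerivAt (hasFDerivAt_P q)
  have h2 := (h1.mul_const I).mul (hasFDerivAt_P q)
  exact Complex.reCLM.hasFDerivAt.comp q h2

lemma clm_apply (L : ℂ →L[ℝ] ℂ) (w : ℂ) : L w = w.re * L 1 + w.im * L I := by
  have h : w = w.re • (1 : ℂ) + w.im • I := by
    simp [Complex.re_add_im]
  conv_lhs => rw [h]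
  rw [map_add, map_smul, map_smul]
  simp

lemma div_eq (F : ℂ → ℂ) (q : ℝ × ℝ) : f' F q (1, 0) + g' F q (0, 1) =
    q.2 * (I * (fderiv ℝ F (pt q.2 q.1)) 1 - (fderiv ℝ F (pt q.2 q.1)) I).re := by
  have hpt : pt q.2 q.1 = q.2 * pt 1 q.1 := by simp [pt]
  have hcs : (pt 1 q.1).re ^ 2 + (pt 1 q.1).im ^ 2 = 1 := by
    have h1 : (pt 1 q.1).re = Real.cos q.1 := by
      simp [pt, Complex.exp_ofReal_mul_I_re]
    have h2 : (pt 1 q.1).im = Real.sin q.1 := by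
      simp [pt, Complex.exp_ofReal_mul_I_im]
    rw [h1, h2, Real.cos_sq_add_sin_sq]
  generalize hL : fderiv ℝ F (pt q.2 q.1) = L
  have hf : f' F q (1, 0) = -(F (pt q.2 q.1) * (I * pt 1 q.1) +
      pt 1 q.1 * L (I * pt q.2 q.1)).re := by
    simp [f', E', P', hL]
  have hg : g' F q (0, 1) = (F (pt q.2 q.1) * I * pt 1 q.1 +
      pt q.2 q.1 * (I * L (pt 1 q.1))).re := by
    simp [g', P', hL]
  rw [hf, hg]
  rw [clm_apply L (I * pt q.2 q.1), clm_apply L (pt 1 q.1)]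
  rw [hpt]
  generalize pt 1 q.1 = e at hcs ⊢
  generalize L 1 = A
  generalize L I = B
  generalize F (↑q.2 * e) = Z
  simp only [Complex.add_re, Complex.mul_re, Complex.mul_im, Complex.I_re, Complex.I_im,
    Complex.ofReal_re, Complex.ofReal_im, Complex.add_im, Complex.sub_re]
  linear_combination (q.2 * (- A.im - B.re)) * hcs

end DIVM

open DIVM in
/-- Stokes in polar coordinates on a box -/
theorem specDIV : SpecDIV := by
  intro F hF ε δ hε hε1 hδ hδ2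
  have hpi := Real.pi_pos
  have hle : δ ≤ Real.pi - δ := by linarith
  have hopen : IsOpen {z : ℂ | 0 < z.im} := isOpen_lt continuous_const Complex.continuous_im
  have hbox : Set.uIcc δ (Real.pi - δ) ×ˢ Set.uIcc ε 1 = Set.Icc δ (Real.pi - δ) ×ˢ Set.Icc ε 1 := by
    rw [Set.uIcc_of_le hle, Set.uIcc_of_le hε1.le]
  have hmem : ∀ q ∈ Set.Icc δ (Real.pi - δ) ×ˢ Set.Icc ε 1, pt q.2 q.1 ∈ {z : ℂ | 0 < z.im} := by
    intro q hq
    obtain ⟨⟨h1, h2⟩, h3, h4⟩ := hq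
    have h5 : (pt q.2 q.1).im = q.2 * Real.sin q.1 := by
      simp [pt, Complex.exp_ofReal_mul_I_im]
    change 0 < (pt q.2 q.1).im
    rw [h5]
    exact mul_pos (by linarith) (Real.sin_pos_of_pos_of_lt_pi (by linarith) (by linarith))
  have hdiff : ∀ q ∈ Set.Icc δ (Real.pi - δ) ×ˢ Set.Icc ε 1, DifferentiableAt ℝ F (pt q.2 q.1) := by
    intro q hq
    exact (hF.differentiableOn one_ne_zero).differentiableAt (hopen.mem_nhds (hmem q hq))
  have hcont : ContinuousOn (fun q : ℝ × ℝ => f' F q (1, 0) + g' F q (0, 1))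
      (Set.Icc δ (Real.pi - δ) ×ˢ Set.Icc ε 1) := by
    have h1 : ContinuousOn (fderiv ℝ F) {z : ℂ | 0 < z.im} :=
      hF.continuousOn_fderiv_of_isOpen hopen le_rfl
    have hP : Continuous (fun q : ℝ × ℝ => pt q.2 q.1) :=
      continuous_iff_continuousAt.mpr fun q => (hasFDerivAt_P q).continuousAt
    have h2 : ContinuousOn (fun q : ℝ × ℝ => fderiv ℝ F (pt q.2 q.1))
        (Set.Icc δ (Real.pi - δ) ×ˢ Set.Icc ε 1) := h1.comp hP.continuousOn hmem
    have h3 : ContinuousOn (fun q : ℝ × ℝ =>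
        q.2 * (I * (fderiv ℝ F (pt q.2 q.1)) 1 - (fderiv ℝ F (pt q.2 q.1)) I).re)
        (Set.Icc δ (Real.pi - δ) ×ˢ Set.Icc ε 1) := by
      refine continuous_snd.continuousOn.mul (Complex.continuous_re.comp_continuousOn ?_)
      exact (continuousOn_const.mul (h2.clm_apply continuousOn_const)).sub
        (h2.clm_apply continuousOn_const)
    exact h3.congr fun q _ => div_eq F q
  have key := integral2_divergence_prod_of_hasFDerivAt (f F) (g F) (f' F) (g' F)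
    δ ε (Real.pi - δ) 1
    (by
      rw [hbox]
      exact fun q hq => (hasFDerivAt_f F q (hdiff q hq)).continuousAt.continuousWithinAt)
    (by
      rw [hbox]
      exact fun q hq => (hasFDerivAt_g F q (hdiff q hq)).continuousAt.continuousWithinAt)
    (by
      intro q hq
      rw [min_eq_left hle, max_eq_right hle, min_eq_left hε1.le, max_eq_right hε1.le] at hq
      exact hasFDerivAt_f F q (hdiff q ⟨Set.Ioo_subset_Icc_self hq.1, Set.Ioo_subset_Icc_self hq.2⟩))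
    (by
      intro q hq
      rw [min_eq_left hle, max_eq_right hle, min_eq_left hε1.le, max_eq_right hε1.le] at hq
      exact hasFDerivAt_g F q (hdiff q ⟨Set.Ioo_subset_Icc_self hq.1, Set.Ioo_subset_Icc_self hq.2⟩))
    (by
      rw [hbox]
      exact hcont.integrableOn_compact (isCompact_Icc.prod isCompact_Icc))
  simp only [div_eq, f, g, intervalIntegral.integral_neg] at key
  rw [key]
  ring

end Pool.Agent.Lib.MP684ec1.HP
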