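import Pool.Agent.Lib.MP_684ec1_an.HP.Spec

/-!
# MP_684ec1, module FIN: half-planes and lines
-/

set_option autoImplicit false

namespace Pool.Agent.Lib.MP684ec1.HP

open Complex Polynomial MeasureTheory intervalIntegral

namespace FINM

lemma sph_nonneg (p : ℂ[X]) (z : ℂ) : 0 ≤ sph p z := by
  unfold sph
  positivity

lemma sph_cont (p : ℂ[X]) : Continuous (sph p) := by
  unfold sph
  apply Continuous.div
  · exact (p.derivative.continuous).norm
  · exact continuous_const.add ((p.continuous).norm.pow 2)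
  · intro z
    positivity

lemma sph_int {S : Set ℂ} (p : ℂ[X]) (c : ℂ) (R : ℝ) (hS : S ⊆ Metric.closedBall c R) :
    IntegrableOn (sph p) S :=
  ((sph_cont p).continuousOn.integrableOn_compact (isCompact_closedBall c R)).mono_set hS

lemma mono {S T : Set ℂ} (p : ℂ[X]) (c : ℂ) (R : ℝ) (hT : T ⊆ Metric.closedBall c R)
    (hST : S ⊆ T) : ∫ z in S, sph p z ≤ ∫ z in T, sph p z :=
  setIntegral_mono_set (sph_int p c R hT) (Filter.Eventually.of_forall fun z => sph_nonneg p z)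
    (Filter.Eventually.of_forall hST)

lemma mul_conj_of_norm {u : ℂ} (hu : ‖u‖ = 1) : u * (starRingEnd ℂ) u = 1 := by
  rw [Complex.mul_conj, Complex.normSq_eq_norm_sq, hu]
  norm_num

lemma im_eq {u : ℂ} (hu : ‖u‖ = 1) (c : ℝ) (z : ℂ) :
    ((z - c * u) * (starRingEnd ℂ) (-I * u)).im = (z * (starRingEnd ℂ) u).re - c := by
  have h : (z - c * u) * (starRingEnd ℂ) (-I * u)
      = I * (z * (starRingEnd ℂ) u) - I * c * (u * (starRingEnd ℂ) u) := by
    rw [map_mul, map_neg, Complex.conj_I]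
    ring
  rw [h, mul_conj_of_norm hu]
  simp

lemma re_le {u : ℂ} (hu : ‖u‖ = 1) (z : ℂ) : |(z * (starRingEnd ℂ) u).re| ≤ ‖z‖ := by
  have h := Complex.abs_re_le_norm (z * (starRingEnd ℂ) u)
  rwa [norm_mul, Complex.norm_conj, hu, mul_one] at h

lemma normSq_sub {u : ℂ} (hu : ‖u‖ = 1) (c : ℝ) (z : ℂ) :
    ‖z - c * u‖ ^ 2 = ‖z‖ ^ 2 - 2 * c * (z * (starRingEnd ℂ) u).re + c ^ 2 := by
  have hu2 : u.re ^ 2 + u.im ^ 2 = 1 := by
    have := Complex.sq_norm u
    rw [hu, Complex.normSq_apply] at this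
    nlinarith
  rw [Complex.sq_norm, Complex.sq_norm, Complex.normSq_apply, Complex.normSq_apply]
  simp only [Complex.sub_re, Complex.sub_im, Complex.mul_re, Complex.mul_im, Complex.ofReal_re,
    Complex.ofReal_im, Complex.conj_re, Complex.conj_im]
  nlinarith

/-- The half disc form of AFF. -/
lemma half (hAFF : SpecAFF) (p : ℂ[X]) (u : ℂ) (c R : ℝ) (hR : 0 < R) (hu : ‖u‖ = 1)
    (hz : ∀ z : ℂ, p.eval z = 0 → (z * (starRingEnd ℂ) u).re ≤ c) (S : Set ℂ)
    (hS : ∀ z ∈ S, ‖z - c * u‖ ≤ R ∧ c ≤ (z * (starRingEnd ℂ) u).re) :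
    ∫ z in S, sph p z ≤ 3 * Real.pi * R := by
  have hu' : ‖-I * u‖ = 1 := by
    rw [norm_mul, norm_neg, Complex.norm_I, hu, one_mul]
  have h := hAFF p (c * u) (-I * u) R hR hu' (fun z hz' => by
    rw [im_eq hu]
    have := hz z hz'
    linarith)
  refine le_trans (mono p (c * u) R ?_ ?_) h
  · intro z hz'
    rw [Metric.mem_closedBall, dist_eq_norm]
    exact hz'.1
  · intro z hz'
    refine ⟨(hS z hz').1, ?_⟩
    rw [im_eq hu]
    have := (hS z hz').2
    linarith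

lemma small (hAFF : SpecAFF) (p : ℂ[X]) (u : ℂ) (c : ℝ) (hc : 0 ≤ c) (hu : ‖u‖ = 1)
    (hz : ∀ z : ℂ, p.eval z = 0 → (z * (starRingEnd ℂ) u).re ≤ c) :
    ∫ z in {z : ℂ | ‖z‖ ≤ 1 ∧ c ≤ (z * (starRingEnd ℂ) u).re}, sph p z ≤ 3 * Real.pi := by
  have h := half hAFF p u c 1 one_pos hu hz
    {z : ℂ | ‖z‖ ≤ 1 ∧ c ≤ (z * (starRingEnd ℂ) u).re} (by
      intro z hz'
      refine ⟨?_, hz'.2⟩
      have h1 := normSq_sub hu c z
      have h2 : ‖z‖ ^ 2 ≤ 1 := by
        have := hz'.1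
        nlinarith [norm_nonneg z]
      have h3 : c * c ≤ c * (z * (starRingEnd ℂ) u).re := mul_le_mul_of_nonneg_left hz'.2 hc
      have h4 : ‖z - c * u‖ ^ 2 ≤ 1 := by nlinarith [sq_nonneg c]
      nlinarith [norm_nonneg (z - c * u)])
  linarith

lemma big (hAFF : SpecAFF) (p : ℂ[X]) (u : ℂ) (c : ℝ) (hu : ‖u‖ = 1)
    (hz : ∀ z : ℂ, p.eval z = 0 → (z * (starRingEnd ℂ) u).re ≤ c) :
    ∫ z in {z : ℂ | ‖z‖ ≤ 1 ∧ c ≤ (z * (starRingEnd ℂ) u).re}, sph p z ≤ 6 * Real.pi := by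
  rcases le_or_gt 0 c with hc | hc
  · have := small hAFF p u c hc hu hz
    linarith [Real.pi_pos]
  rcases le_or_gt (-1) c with hc1 | hc1
  · have h := half hAFF p u c 2 two_pos hu hz
      {z : ℂ | ‖z‖ ≤ 1 ∧ c ≤ (z * (starRingEnd ℂ) u).re} (by
        intro z hz'
        refine ⟨?_, hz'.2⟩
        calc ‖z - c * u‖ ≤ ‖z‖ + ‖(c : ℂ) * u‖ := norm_sub_le _ _
          _ ≤ 1 + 1 := by
            apply add_le_add hz'.1
            rw [norm_mul, hu, mul_one, Complex.norm_real, Real.norm_eq_abs, abs_le]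
            exact ⟨hc1, by linarith⟩
          _ = 2 := by norm_num)
    linarith
  · have h := half hAFF p u (-1) 2 two_pos hu (fun z hz' => (hz z hz').trans hc1.le)
      {z : ℂ | ‖z‖ ≤ 1 ∧ c ≤ (z * (starRingEnd ℂ) u).re} (by
        intro z hz'
        refine ⟨?_, ?_⟩
        · calc ‖z - ((-1 : ℝ) : ℂ) * u‖ ≤ ‖z‖ + ‖((-1 : ℝ) : ℂ) * u‖ := norm_sub_le _ _
            _ ≤ 1 + 1 := by
              apply add_le_add hz'.1
              rw [norm_mul, hu, mul_one, Complex.norm_real, Real.norm_eq_abs]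
              norm_num
            _ = 2 := by norm_num
        · have h1 := re_le hu z
          have h2 := hz'.1
          rw [abs_le] at h1
          linarith [h1.1])
    linarith

lemma union (p : ℂ[X]) (u : ℂ) (c : ℝ) (a b : ℝ)
    (h1 : ∫ z in {z : ℂ | ‖z‖ ≤ 1 ∧ c ≤ (z * (starRingEnd ℂ) u).re}, sph p z ≤ a)
    (h2 : ∫ z in {z : ℂ | ‖z‖ ≤ 1 ∧ -c ≤ (z * (starRingEnd ℂ) (-u)).re}, sph p z ≤ b) :
    ∫ z in Metric.closedBall (0 : ℂ) 1, sph p z ≤ a + b := by
  set S : Set ℂ := {z : ℂ | ‖z‖ ≤ 1 ∧ c ≤ (z * (starRingEnd ℂ) u).re} with hS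
  have hSm : MeasurableSet S := by
    apply MeasurableSet.inter
    · exact measurableSet_le measurable_norm measurable_const
    · exact measurableSet_le measurable_const
        (Complex.measurable_re.comp (measurable_id.mul measurable_const))
  have hSb : S ⊆ Metric.closedBall (0 : ℂ) 1 := by
    intro z hz
    rw [Metric.mem_closedBall, dist_zero_right]
    exact hz.1
  have h3 : ∫ z in Metric.closedBall (0 : ℂ) 1, sph p z
      = (∫ z in S, sph p z) + ∫ z in Metric.closedBall (0 : ℂ) 1 \ S, sph p z := by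
    rw [← setIntegral_union Set.disjoint_sdiff_right (Metric.isClosed_closedBall.measurableSet.diff hSm)
      (sph_int p 0 1 hSb) (sph_int p 0 1 Set.sdiff_subset), Set.union_sdiff_cancel hSb]
  have h4 : ∫ z in Metric.closedBall (0 : ℂ) 1 \ S, sph p z ≤
      ∫ z in {z : ℂ | ‖z‖ ≤ 1 ∧ -c ≤ (z * (starRingEnd ℂ) (-u)).re}, sph p z := by
    apply mono p 0 1
    · intro z hz
      rw [Metric.mem_closedBall, dist_zero_right]
      exact hz.1
    · intro z hz
      have hz1 : ‖z‖ ≤ 1 := by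
        have := hz.1
        rwa [Metric.mem_closedBall, dist_zero_right] at this
      refine ⟨hz1, ?_⟩
      have hz2 : ¬ c ≤ (z * (starRingEnd ℂ) u).re := fun h => hz.2 ⟨hz1, h⟩
      rw [map_neg, mul_neg, Complex.neg_re]
      linarith [not_le.mp hz2]
  linarith

end FINM

open FINM in
theorem specFIN (hAFF : SpecAFF) : SpecFIN := by
  refine ⟨fun p u c hu hz => big hAFF p u c hu hz, ?_⟩
  intro p u c hu hz
  have hu' : ‖-u‖ = 1 := by rw [norm_neg, hu]
  have hz1 : ∀ z : ℂ, p.eval z = 0 → (z * (starRingEnd ℂ) u).re ≤ c := fun z h => (hz z h).le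
  have hz2 : ∀ z : ℂ, p.eval z = 0 → (z * (starRingEnd ℂ) (-u)).re ≤ -c := fun z h => by
    rw [map_neg, mul_neg, Complex.neg_re, hz z h]
  rcases le_or_gt 0 c with hc | hc
  · have := union p u c _ _ (small hAFF p u c hc hu hz1) (big hAFF p (-u) (-c) hu' hz2)
    linarith
  · have := union p u c _ _ (big hAFF p u c hu hz1)
      (small hAFF p (-u) (-c) (by linarith) hu' hz2)
    linarith

end Pool.Agent.Lib.MP684ec1.HP
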