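import Pool.Agent.Lib.MP_684ec1_an.HP.Spec

/-!
# MP_684ec1: module LMT (the half disc)
-/

set_option autoImplicit false

namespace Pool.Agent.Lib.MP684ec1.HP

open Complex Polynomial MeasureTheory intervalIntegral

namespace LMTM

lemma pt_norm {r : ℝ} (hr : 0 ≤ r) (φ : ℝ) : ‖pt r φ‖ = r := by
  unfold pt
  rw [norm_mul, norm_exp_ofReal_mul_I, mul_one, norm_real, Real.norm_of_nonneg hr]

lemma pt_cont : Continuous fun p : ℝ × ℝ => pt p.1 p.2 := by
  unfold pt
  fun_prop

lemma sph_cont (p : ℂ[X]) : Continuous (sph p) := by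
  unfold sph
  refine Continuous.div ?_ ?_ ?_
  · exact p.derivative.continuous.norm
  · exact continuous_const.add (p.continuous.norm.pow 2)
  · intro z
    positivity

lemma sph_nonneg (p : ℂ[X]) (z : ℂ) : 0 ≤ sph p z := by
  unfold sph
  positivity

lemma sph_bdd (p : ℂ[X]) : ∃ M : ℝ, 0 ≤ M ∧ ∀ z : ℂ, ‖z‖ ≤ 1 → sph p z ≤ M := by
  obtain ⟨M, hM⟩ := (isCompact_closedBall (0 : ℂ) 1).bddAbove_image (sph_cont p).continuousOn
  refine ⟨max M 0, le_max_right _ _, fun z hz => (hM ⟨z, ?_, rfl⟩).trans (le_max_left _ _)⟩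
  rw [Metric.mem_closedBall, dist_zero_right]
  exact hz

end LMTM

open LMTM in
theorem specLMT (hBDY : SpecBDY) (hPOL : SpecPOL) : SpecLMT := by
  intro p hp
  obtain ⟨C, hC⟩ := hBDY p hp
  obtain ⟨M, hM0, hM⟩ := sph_bdd p
  rw [hPOL (sph p) (sph_cont p)]
  have hπ := Real.pi_gt_three
  set g : ℝ → ℝ → ℝ := fun φ r => r * sph p (pt r φ) with hg
  have hcont : Continuous (Function.uncurry g) := by
    have h1 : Continuous fun q : ℝ × ℝ => pt q.2 q.1 := pt_cont.comp continuous_swap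
    exact continuous_snd.mul ((sph_cont p).comp h1)
  have hcr : ∀ φ, Continuous (g φ) := fun φ => hcont.comp (by fun_prop : Continuous fun r => (φ, r))
  have hG : ∀ a b : ℝ, Continuous fun φ => ∫ r in a..b, g φ r := fun a b =>
    intervalIntegral.continuous_parametric_intervalIntegral_of_continuous' hcont a b
  have g0 : ∀ φ r, 0 ≤ r → 0 ≤ g φ r := fun φ r hr => mul_nonneg hr (sph_nonneg p _)
  have g1 : ∀ φ r, 0 ≤ r → r ≤ 1 → g φ r ≤ M := by
    intro φ r hr hr1
    have h1 := hM (pt r φ) (by rw [pt_norm hr]; exact hr1)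
    have h2 := sph_nonneg p (pt r φ)
    calc g φ r ≤ 1 * M := mul_le_mul hr1 h1 h2 zero_le_one
      _ = M := one_mul M
  have b1 : ∀ φ a : ℝ, 0 ≤ a → a ≤ 1 → ∫ r in (0 : ℝ)..a, g φ r ≤ M * a := by
    intro φ a ha ha1
    have h1 : ∫ r in (0 : ℝ)..a, g φ r ≤ ∫ r in (0 : ℝ)..a, M :=
      intervalIntegral.integral_mono_on ha ((hcr φ).intervalIntegrable _ _)
        (continuous_const.intervalIntegrable _ _) fun r hr => g1 φ r hr.1 (hr.2.trans ha1)
    rw [intervalIntegral.integral_const, smul_eq_mul, sub_zero] at h1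
    linarith
  have key : ∀ δ : ℝ, 0 < δ → δ < 1 → ∫ φ in (0 : ℝ)..Real.pi, ∫ r in (0 : ℝ)..1, g φ r ≤
      3 * Real.pi + C * (δ + δ) + M * (2 * δ + Real.pi * δ) := by
    intro δ d0 d1
    have hB := hC δ δ d0 d1 d0 (by linarith)
    have s1 : ∫ φ in (0 : ℝ)..Real.pi, ∫ r in (0 : ℝ)..1, g φ r =
        (∫ φ in (0 : ℝ)..δ, ∫ r in (0 : ℝ)..1, g φ r) +
        (∫ φ in δ..(Real.pi - δ), ∫ r in (0 : ℝ)..1, g φ r) +
        ∫ φ in (Real.pi - δ)..Real.pi, ∫ r in (0 : ℝ)..1, g φ r := by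
      rw [intervalIntegral.integral_add_adjacent_intervals ((hG 0 1).intervalIntegrable _ _)
        ((hG 0 1).intervalIntegrable _ _), intervalIntegral.integral_add_adjacent_intervals
        ((hG 0 1).intervalIntegrable _ _) ((hG 0 1).intervalIntegrable _ _)]
    have c1 : ∀ φ, ∫ r in (0 : ℝ)..1, g φ r ≤ M := fun φ => by
      have := b1 φ 1 zero_le_one le_rfl
      linarith
    have s2 : ∫ φ in (0 : ℝ)..δ, ∫ r in (0 : ℝ)..1, g φ r ≤ M * δ := by
      have h1 : ∫ φ in (0 : ℝ)..δ, ∫ r in (0 : ℝ)..1, g φ r ≤ ∫ φ in (0 : ℝ)..δ, M :=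
        intervalIntegral.integral_mono_on d0.le ((hG 0 1).intervalIntegrable _ _)
          (continuous_const.intervalIntegrable _ _) fun φ _ => c1 φ
      rw [intervalIntegral.integral_const, smul_eq_mul, sub_zero] at h1
      linarith
    have s3 : ∫ φ in (Real.pi - δ)..Real.pi, ∫ r in (0 : ℝ)..1, g φ r ≤ M * δ := by
      have h1 : ∫ φ in (Real.pi - δ)..Real.pi, ∫ r in (0 : ℝ)..1, g φ r ≤
          ∫ φ in (Real.pi - δ)..Real.pi, M :=
        intervalIntegral.integral_mono_on (by linarith) ((hG 0 1).intervalIntegrable _ _)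
          (continuous_const.intervalIntegrable _ _) fun φ _ => c1 φ
      rw [intervalIntegral.integral_const, smul_eq_mul] at h1
      linarith
    have s4 : ∫ φ in δ..(Real.pi - δ), ∫ r in (0 : ℝ)..1, g φ r ≤
        (∫ φ in δ..(Real.pi - δ), ∫ r in δ..1, g φ r) + M * δ * (Real.pi - δ - δ) := by
      have h1 : ∫ φ in δ..(Real.pi - δ), ∫ r in (0 : ℝ)..1, g φ r ≤
          ∫ φ in δ..(Real.pi - δ), ((∫ r in δ..1, g φ r) + M * δ) := by
        refine intervalIntegral.integral_mono_on (by linarith) ((hG 0 1).intervalIntegrable _ _)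
          (((hG δ 1).add continuous_const).intervalIntegrable _ _) fun φ _ => ?_
        rw [← intervalIntegral.integral_add_adjacent_intervals
          ((hcr φ).intervalIntegrable 0 δ) ((hcr φ).intervalIntegrable δ 1)]
        have := b1 φ δ d0.le d1.le
        linarith
      rw [intervalIntegral.integral_add ((hG δ 1).intervalIntegrable _ _)
        (continuous_const.intervalIntegrable _ _), intervalIntegral.integral_const,
        smul_eq_mul] at h1
      linarith
    have s5 : M * δ * (Real.pi - δ - δ) ≤ M * δ * Real.pi :=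
      mul_le_mul_of_nonneg_left (by linarith) (mul_nonneg hM0 d0.le)
    have s6 : (∫ φ in δ..(Real.pi - δ), ∫ r in δ..1, g φ r) ≤ 3 * Real.pi + C * (δ + δ) := hB
    rw [s1]
    linarith
  refine le_of_forall_pos_le_add fun η hη => ?_
  set K : ℝ := 2 * |C| + M * (2 + Real.pi) with hK
  have hK0 : 0 ≤ K := by positivity
  set δ : ℝ := min (1 / 2) (η / (K + 1)) with hδ
  have d0 : 0 < δ := lt_min (by norm_num) (by positivity)
  have d1 : δ < 1 := (min_le_left _ _).trans_lt (by norm_num)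
  have d2 : K * δ ≤ η := by
    have h1 : δ ≤ η / (K + 1) := min_le_right _ _
    have h2 : (K + 1) * δ ≤ η := by
      rw [le_div_iff₀ (by positivity)] at h1
      linarith
    linarith
  have h := key δ d0 d1
  have h3 : C * (δ + δ) ≤ 2 * |C| * δ := by
    have := mul_le_mul_of_nonneg_right (le_abs_self C) (by linarith : 0 ≤ δ + δ)
    linarith
  have h4 : 2 * |C| * δ + M * (2 * δ + Real.pi * δ) = K * δ := by
    rw [hK]
    ring
  have h5 : ∫ φ in (0 : ℝ)..Real.pi, ∫ r in (0 : ℝ)..1, g φ r ≤ 3 * Real.pi + η := by linarith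
  exact h5

end Pool.Agent.Lib.MP684ec1.HP
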