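import Pool.Agent.Lib.MP_684ec1_an.HP.Spec

/-!
# MP_684ec1: module POL (polar coordinates on the half disc)
-/

set_option autoImplicit false

namespace Pool.Agent.Lib.MP684ec1.HP

open Complex Polynomial MeasureTheory intervalIntegral

namespace POLM

lemma pt_eq (r φ : ℝ) : pt r φ = (r : ℂ) * ((Real.cos φ : ℝ) + (Real.sin φ : ℝ) * I) := by
  unfold pt
  rw [exp_mul_I, ofReal_cos, ofReal_sin]

lemma pt_norm {r : ℝ} (hr : 0 ≤ r) (φ : ℝ) : ‖pt r φ‖ = r := by
  unfold pt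
  rw [norm_mul, norm_exp_ofReal_mul_I, mul_one, norm_real, Real.norm_of_nonneg hr]

lemma pt_im (r φ : ℝ) : (pt r φ).im = r * Real.sin φ := by
  rw [pt_eq, Complex.im_ofReal_mul, Complex.add_im, Complex.ofReal_im, Complex.mul_I_im,
    Complex.ofReal_re, zero_add]

lemma pt_cont : Continuous fun p : ℝ × ℝ => pt p.1 p.2 := by
  unfold pt
  fun_prop

lemma meas_Hd : MeasurableSet Hd :=
  ((isClosed_le continuous_norm continuous_const).inter
    (isClosed_le continuous_const continuous_im)).measurableSet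

lemma mem_iff {r φ : ℝ} (hr : 0 < r) (h1 : -Real.pi < φ) (h2 : φ < Real.pi) :
    pt r φ ∈ Hd ↔ r ≤ 1 ∧ 0 ≤ φ := by
  change ‖pt r φ‖ ≤ 1 ∧ 0 ≤ (pt r φ).im ↔ _
  rw [pt_norm hr.le, pt_im]
  refine and_congr_right fun _ => ?_
  constructor
  · intro h
    by_contra hn
    push Not at hn
    have h3 : Real.sin φ < 0 := Real.sin_neg_of_neg_of_neg_pi_lt hn h1
    nlinarith
  · intro h
    exact mul_nonneg hr.le (Real.sin_nonneg_of_nonneg_of_le_pi h h2.le)

end POLM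

open POLM in
theorem specPOL : SpecPOL := by
  intro f hf
  rw [← MeasureTheory.integral_indicator meas_Hd, ← Complex.integral_comp_polarCoord_symm]
  have hS : MeasurableSet (Set.Ioc (0 : ℝ) 1 ×ˢ Set.Ico (0 : ℝ) Real.pi) :=
    measurableSet_Ioc.prod measurableSet_Ico
  have hT : MeasurableSet polarCoord.target := polarCoord.open_target.measurableSet
  have e1 : ∫ p in polarCoord.target, p.1 • Hd.indicator f (Complex.polarCoord.symm p) =
      ∫ p in polarCoord.target, (Set.Ioc (0 : ℝ) 1 ×ˢ Set.Ico (0 : ℝ) Real.pi).indicator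
        (fun p : ℝ × ℝ => p.1 * f (pt p.1 p.2)) p := by
    refine setIntegral_congr_fun hT ?_
    rintro ⟨r, φ⟩ hp
    rw [polarCoord_target, Set.mem_prod, Set.mem_Ioi, Set.mem_Ioo] at hp
    obtain ⟨h0, h1, h2⟩ := hp
    have e2 : Complex.polarCoord.symm (r, φ) = pt r φ := by
      rw [Complex.polarCoord_symm_apply, pt_eq]
    change r • Hd.indicator f (Complex.polarCoord.symm (r, φ)) = _
    rw [e2]
    by_cases h : pt r φ ∈ Hd
    · rw [Set.indicator_of_mem h]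
      have h3 := (mem_iff h0 h1 h2).mp h
      rw [Set.indicator_of_mem (show (r, φ) ∈ Set.Ioc (0 : ℝ) 1 ×ˢ Set.Ico (0 : ℝ) Real.pi from
        ⟨⟨h0, h3.1⟩, ⟨h3.2, h2⟩⟩)]
      rfl
    · rw [Set.indicator_of_notMem h, smul_zero, Set.indicator_of_notMem]
      rintro ⟨⟨_, h4⟩, ⟨h5, _⟩⟩
      exact h ((mem_iff h0 h1 h2).mpr ⟨h4, h5⟩)
  rw [e1, setIntegral_indicator hS]
  have hsub : Set.Ioc (0 : ℝ) 1 ×ˢ Set.Ico (0 : ℝ) Real.pi ⊆ polarCoord.target := by
    rw [polarCoord_target]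
    rintro ⟨r, φ⟩ ⟨h1, h2⟩
    exact ⟨h1.1, by linarith [Real.pi_pos, h2.1], h2.2⟩
  rw [Set.inter_eq_self_of_subset_right hsub]
  have hcont : Continuous fun p : ℝ × ℝ => p.1 * f (pt p.1 p.2) :=
    continuous_fst.mul (hf.comp pt_cont)
  have hint : IntegrableOn (fun p : ℝ × ℝ => p.1 * f (pt p.1 p.2))
      (Set.Icc (0 : ℝ) 1 ×ˢ Set.Icc (0 : ℝ) Real.pi) (volume.prod volume) := by
    refine ContinuousOn.integrableOn_compact (isCompact_Icc.prod isCompact_Icc) hcont.continuousOn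
  have hint1 : IntegrableOn (fun p : ℝ × ℝ => p.1 * f (pt p.1 p.2))
      (Set.Ioc (0 : ℝ) 1 ×ˢ Set.Ico (0 : ℝ) Real.pi) (volume.prod volume) :=
    hint.mono_set (Set.prod_mono Set.Ioc_subset_Icc_self Set.Ico_subset_Icc_self)
  have e3 : ∫ p in Set.Ioc (0 : ℝ) 1 ×ˢ Set.Ico (0 : ℝ) Real.pi, p.1 * f (pt p.1 p.2) =
      ∫ r in Set.Ioc (0 : ℝ) 1, ∫ φ in Set.Ico (0 : ℝ) Real.pi, r * f (pt r φ) :=
    setIntegral_prod (fun p : ℝ × ℝ => p.1 * f (pt p.1 p.2)) hint1
  rw [e3]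
  have hint2 : Integrable (Function.uncurry fun (r φ : ℝ) => r * f (pt r φ))
      ((volume.restrict (Set.Ioc (0 : ℝ) 1)).prod (volume.restrict (Set.Ico (0 : ℝ) Real.pi))) := by
    rw [Measure.prod_restrict]
    exact hint1
  rw [integral_integral_swap hint2, integral_Ico_eq_integral_Ioc,
    intervalIntegral.integral_of_le Real.pi_pos.le]
  refine setIntegral_congr_fun measurableSet_Ioc ?_
  intro φ _
  change _ = ∫ r in (0 : ℝ)..1, r * f (pt r φ)
  rw [intervalIntegral.integral_of_le zero_le_one]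

end Pool.Agent.Lib.MP684ec1.HP
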