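import Pool.Agent.Lib.MP_684ec1_an.HP.Spec

set_option autoImplicit false

namespace Pool.Agent.Lib.MP684ec1.HP

open Complex Polynomial MeasureTheory intervalIntegral

noncomputable section

namespace PTWM

lemma line (z v : ℂ) : HasDerivAt (fun t : ℝ => z + (t : ℂ) * v) v 0 := by
  have h : HasDerivAt (fun t : ℝ => (t : ℂ)) 1 0 := Complex.ofRealCLM.hasDerivAt
  simpa using (h.mul_const v).const_add z

lemma re_deriv {u : ℝ → ℂ} {u' : ℂ} {t : ℝ} (h : HasDerivAt u u' t) :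
    HasDerivAt (fun s => (u s).re) u'.re t :=
  Complex.reCLM.hasFDerivAt.comp_hasDerivAt t h

lemma im_deriv {u : ℝ → ℂ} {u' : ℂ} {t : ℝ} (h : HasDerivAt u u' t) :
    HasDerivAt (fun s => (u s).im) u'.im t :=
  Complex.imCLM.hasFDerivAt.comp_hasDerivAt t h

lemma norm_deriv {u : ℝ → ℂ} {u' : ℂ} {t : ℝ} (h : HasDerivAt u u' t) (h0 : u t ≠ 0) :
    HasDerivAt (fun s => ‖u s‖) (((u t).re * u'.re + (u t).im * u'.im) / ‖u t‖) t := by
  have e : (fun s => ‖u s‖) = fun s => √((u s).re ^ 2 + (u s).im ^ 2) := by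
    funext s
    exact Complex.norm_eq_sqrt_sq_add_sq (u s)
  have hpos : (u t).re ^ 2 + (u t).im ^ 2 ≠ 0 := by
    intro hh
    apply h0
    have h1 : (u t).re = 0 := by nlinarith [sq_nonneg (u t).re, sq_nonneg (u t).im]
    have h2 : (u t).im = 0 := by nlinarith [sq_nonneg (u t).re, sq_nonneg (u t).im]
    exact Complex.ext h1 h2
  have h1 := (((re_deriv h).pow 2).add ((im_deriv h).pow 2)).sqrt hpos
  rw [e]
  refine h1.congr_deriv ?_
  rw [Complex.norm_eq_sqrt_sq_add_sq (u t)]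
  have hs : √((u t).re ^ 2 + (u t).im ^ 2) ≠ 0 := by
    rw [Real.sqrt_ne_zero']
    positivity
  simp only [Pi.add_apply, Pi.pow_apply]
  field_simp
  push_cast
  ring

/-- the derivative of `F` along `v` -/
def DF (P f f' z v : ℂ) : ℂ :=
  let ρ := ‖P‖
  let N := ‖f‖
  let w := ρ / (1 + ρ ^ 2)
  let w1 := ρ * (1 - ρ ^ 2) / (1 + ρ ^ 2) ^ 2
  let Ψ := -(z.im * f.re / N)
  let Ψ1 := -(v.im * f.re / N) - z.im * (f' * v).re / N
    + z.im * f.re * (f.re * (f' * v).re + f.im * (f' * v).im) / N ^ 3;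
  (-2 : ℂ) * ((w * (f * v).re : ℝ) : ℂ) + ((Ψ1 * w : ℝ) : ℂ) * f + ((Ψ * (w1 * (f * v).re) : ℝ) : ℂ) * f
    + ((Ψ * w : ℝ) : ℂ) * (f' * v)

lemma line_deriv (p : ℂ[X]) (z f' v : ℂ) (hP : p.eval z ≠ 0) (hf : lg p z ≠ 0)
    (hf' : HasDerivAt (lg p) f' z) :
    HasDerivAt (fun t : ℝ => Fz p (z + (t : ℂ) * v)) (DF (p.eval z) (lg p z) f' z v) 0 := by
  have hz : z + ((0 : ℝ) : ℂ) * v = z := by simp
  have hL := line z v
  -- the polynomial
  have hPd : HasDerivAt (fun t : ℝ => p.eval (z + (t : ℂ) * v)) (lg p z * p.eval z * v) 0 := by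
    have h1 : HasDerivAt (fun x : ℂ => p.eval x) (p.derivative.eval z) (z + ((0 : ℝ) : ℂ) * v) := by
      rw [hz]; exact p.hasDerivAt z
    have h2 := HasDerivAt.comp (0 : ℝ) h1 hL
    refine h2.congr_deriv ?_
    unfold lg
    field_simp
  have hfd : HasDerivAt (fun t : ℝ => lg p (z + (t : ℂ) * v)) (f' * v) 0 := by
    have h1 : HasDerivAt (lg p) f' (z + ((0 : ℝ) : ℂ) * v) := by
      rw [hz]; exact hf'
    exact HasDerivAt.comp (0 : ℝ) h1 hL
  have hy : HasDerivAt (fun t : ℝ => (z + (t : ℂ) * v).im) v.im 0 := im_deriv hL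
  have hρ : HasDerivAt (fun t : ℝ => ‖p.eval (z + (t : ℂ) * v)‖)
      (‖p.eval z‖ * (lg p z * v).re) 0 := by
    have h1 := norm_deriv hPd (by rw [hz]; exact hP)
    refine h1.congr_deriv ?_
    rw [hz]
    have hN : ‖p.eval z‖ ≠ 0 := norm_ne_zero_iff.2 hP
    have hN2 : ‖p.eval z‖ ^ 2 = (p.eval z).re ^ 2 + (p.eval z).im ^ 2 := by
      rw [Complex.sq_norm, Complex.normSq_apply]; ring
    rw [div_eq_iff hN]
    have : ‖p.eval z‖ * (lg p z * v).re * ‖p.eval z‖ =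
        ((p.eval z).re ^ 2 + (p.eval z).im ^ 2) * (lg p z * v).re := by rw [← hN2]; ring
    rw [this]
    simp only [Complex.mul_re, Complex.mul_im]
    ring
  have hN : HasDerivAt (fun t : ℝ => ‖lg p (z + (t : ℂ) * v)‖)
      (((lg p z).re * (f' * v).re + (lg p z).im * (f' * v).im) / ‖lg p z‖) 0 := by
    have h1 := norm_deriv hfd (by rw [hz]; exact hf)
    rwa [hz] at h1
  have hNne : ‖lg p z‖ ≠ 0 := norm_ne_zero_iff.2 hf
  have hNne' : ‖lg p (z + ((0 : ℝ) : ℂ) * v)‖ ≠ 0 := by rw [hz]; exact hNne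
  have hre : HasDerivAt (fun t : ℝ => (lg p (z + (t : ℂ) * v)).re) (f' * v).re 0 := re_deriv hfd
  have hΨ := ((hy.mul hre).div hN hNne').neg
  have hone : (1 + ‖p.eval (z + ((0 : ℝ) : ℂ) * v)‖ ^ 2 : ℝ) ≠ 0 := by positivity
  have hw := hρ.div ((hρ.pow 2).const_add 1) hone
  have hW := hρ.arctan
  have hWc := (HasDerivAt.ofReal_comp hW).const_mul (-2 : ℂ)
  have hΨc := HasDerivAt.ofReal_comp hΨ
  have hwc := HasDerivAt.ofReal_comp hw
  have hall := hWc.add ((hΨc.mul hwc).mul hfd)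
  have hall2 : HasDerivAt (fun t : ℝ => Fz p (z + (t : ℂ) * v)) _ 0 := hall
  refine hall2.congr_deriv ?_
  simp only [Pi.pow_apply, Pi.mul_apply, Pi.neg_apply, Pi.div_apply, hz, DF]
  generalize ‖p.eval z‖ = ρ
  generalize ‖lg p z‖ = N at hNne
  generalize (lg p z * v).re = X
  generalize hs : (lg p z).re * (f' * v).re + (lg p z).im * (f' * v).im = s
  generalize (f' * v).re = c
  have e1 : 1 / (1 + ρ ^ 2) * (ρ * X) = ρ / (1 + ρ ^ 2) * X := by ring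
  have e2 : -(((v.im * (lg p z).re + z.im * c) * N - z.im * (lg p z).re * (s / N)) / N ^ 2) =
      -(v.im * (lg p z).re / N) - z.im * c / N + z.im * (lg p z).re * s / N ^ 3 := by
    field_simp
    ring
  have e3 : (ρ * X * (1 + ρ ^ 2) - ρ * (((2 : ℕ) : ℝ) * ρ ^ (2 - 1) * (ρ * X))) / (1 + ρ ^ 2) ^ 2 =
      ρ * (1 - ρ ^ 2) / (1 + ρ ^ 2) ^ 2 * X := by
    have hn : (1 + ρ ^ 2) ^ 2 ≠ 0 := by positivity
    rw [div_eq_iff hn]
    have : ρ * (1 - ρ ^ 2) / (1 + ρ ^ 2) ^ 2 * X * (1 + ρ ^ 2) ^ 2 = ρ * (1 - ρ ^ 2) * X := by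
      field_simp
    rw [this]
    push_cast
    ring
  rw [e1, e2, e3]
  push_cast
  ring

lemma diff_Fz (p : ℂ[X]) (z f' : ℂ) (hP : p.eval z ≠ 0) (hf : lg p z ≠ 0)
    (hf' : HasDerivAt (lg p) f' z) : DifferentiableAt ℝ (Fz p) z := by
  have d1 : DifferentiableAt ℝ (fun z : ℂ => p.eval z) z := p.differentiable.differentiableAt.restrictScalars ℝ
  have d2 : DifferentiableAt ℝ (lg p) z := hf'.differentiableAt.restrictScalars ℝ
  have d3 : DifferentiableAt ℝ (fun z : ℂ => ‖p.eval z‖) z := d1.norm ℝ hP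
  have d4 : DifferentiableAt ℝ (fun z : ℂ => ‖lg p z‖) z := d2.norm ℝ hf
  have d5 : DifferentiableAt ℝ (fun z : ℂ => z.im) z := Complex.imCLM.differentiableAt
  have d6 : DifferentiableAt ℝ (fun z : ℂ => (lg p z).re) z :=
    Complex.reCLM.differentiableAt.comp z d2
  have hN : ‖lg p z‖ ≠ 0 := norm_ne_zero_iff.2 hf
  have d7 : DifferentiableAt ℝ (fun z : ℂ => -(z.im * (lg p z).re / ‖lg p z‖)) z :=
    ((d5.mul d6).mul (d4.inv hN)).neg
  have hone : (1 + ‖p.eval z‖ ^ 2 : ℝ) ≠ 0 := by positivity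
  have e8 : DifferentiableAt ℝ (fun z : ℂ => 1 + ‖p.eval z‖ ^ 2) z := (d3.fun_pow 2).const_add 1
  have d8 : DifferentiableAt ℝ (fun z : ℂ => ‖p.eval z‖ / (1 + ‖p.eval z‖ ^ 2)) z :=
    d3.mul (e8.inv hone)
  have d9 : DifferentiableAt ℝ (fun z : ℂ => Real.arctan ‖p.eval z‖) z := d3.arctan
  have c7 : DifferentiableAt ℝ (fun z : ℂ => ((-(z.im * (lg p z).re / ‖lg p z‖) : ℝ) : ℂ)) z :=
    Complex.ofRealCLM.differentiableAt.comp z d7
  have c8 : DifferentiableAt ℝ (fun z : ℂ => ((‖p.eval z‖ / (1 + ‖p.eval z‖ ^ 2) : ℝ) : ℂ)) z :=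
    Complex.ofRealCLM.differentiableAt.comp z d8
  have c9 : DifferentiableAt ℝ (fun z : ℂ => ((Real.arctan ‖p.eval z‖ : ℝ) : ℂ)) z :=
    Complex.ofRealCLM.differentiableAt.comp z d9
  exact (c9.const_mul (-2)).add ((c7.mul c8).mul d2)

/-- the final inequality -/
lemma final (w a b c e y N : ℝ) (hw : 0 ≤ w) (hb : b < 0) (hy : 0 < y) (hN : N ^ 2 = a ^ 2 + b ^ 2)
    (hN0 : 0 < N) (M : ℝ) (hM : 0 ≤ M) (hM2 : M ^ 2 = c ^ 2 + e ^ 2) (hMy : M * y ≤ -b) :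
    w * N ≤ -2 * w * b + w * (a ^ 2 / N - (y * b / N ^ 3) * ((a ^ 2 - b ^ 2) * c + 2 * a * b * e)) := by
  have h1 : -(N ^ 2 * M) ≤ (a ^ 2 - b ^ 2) * c + 2 * a * b * e := by
    have hsq : ((a ^ 2 - b ^ 2) * c + 2 * a * b * e) ^ 2 ≤ (N ^ 2 * M) ^ 2 := by
      have : (N ^ 2 * M) ^ 2 = (a ^ 2 + b ^ 2) ^ 2 * (c ^ 2 + e ^ 2) := by
        rw [mul_pow, ← hM2, ← hN]
      rw [this]
      nlinarith [sq_nonneg ((a ^ 2 - b ^ 2) * e - 2 * a * b * c)]
    have h0 : 0 ≤ N ^ 2 * M := by positivity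
    exact (abs_le.1 (abs_le_of_sq_le_sq hsq h0)).1
  have h2 : -(b ^ 2 / N) ≤ -((y * b / N ^ 3) * ((a ^ 2 - b ^ 2) * c + 2 * a * b * e)) := by
    have hc : 0 ≤ -(y * b) / N ^ 3 := by
      apply div_nonneg _ (by positivity)
      nlinarith
    have h3 : (-(y * b) / N ^ 3) * (-(N ^ 2 * M)) ≤
        (-(y * b) / N ^ 3) * ((a ^ 2 - b ^ 2) * c + 2 * a * b * e) :=
      mul_le_mul_of_nonneg_left h1 hc
    have h4 : (-(y * b) / N ^ 3) * (-(N ^ 2 * M)) = (b * (M * y)) / N := by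
      field_simp
    have h5 : -(b ^ 2 / N) ≤ (b * (M * y)) / N := by
      rw [← neg_div]
      apply div_le_div_of_nonneg_right _ hN0.le
      nlinarith
    calc -(b ^ 2 / N) ≤ (b * (M * y)) / N := h5
      _ = (-(y * b) / N ^ 3) * (-(N ^ 2 * M)) := h4.symm
      _ ≤ _ := h3
      _ = _ := by ring
  have hNb : -b ≤ N := by
    nlinarith [sq_nonneg a]
  have h6 : N ≤ -2 * b + (a ^ 2 / N - b ^ 2 / N) := by
    have : N * N ≤ (-2 * b + (a ^ 2 / N - b ^ 2 / N)) * N := by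
      have e : (-2 * b + (a ^ 2 / N - b ^ 2 / N)) * N = -2 * b * N + a ^ 2 - b ^ 2 := by
        field_simp
        ring
      rw [e]
      nlinarith
    exact le_of_mul_le_mul_right this hN0
  have h7 : N ≤ -2 * b + (a ^ 2 / N - (y * b / N ^ 3) * ((a ^ 2 - b ^ 2) * c + 2 * a * b * e)) := by
    linarith
  calc w * N ≤ w * (-2 * b + (a ^ 2 / N - (y * b / N ^ 3) * ((a ^ 2 - b ^ 2) * c + 2 * a * b * e))) :=
        mul_le_mul_of_nonneg_left h7 hw
    _ = _ := by ring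

lemma combine (P f f' z : ℂ) (hf : f ≠ 0) :
    (I * DF P f f' z 1 - DF P f f' z I).re =
      -2 * (‖P‖ / (1 + ‖P‖ ^ 2)) * f.im + (‖P‖ / (1 + ‖P‖ ^ 2)) * (f.re ^ 2 / ‖f‖ -
        (z.im * f.im / ‖f‖ ^ 3) * ((f.re ^ 2 - f.im ^ 2) * f'.re + 2 * f.re * f.im * f'.im)) := by
  have hN : ‖f‖ ≠ 0 := norm_ne_zero_iff.2 hf
  have hN2 : ‖f‖ ^ 2 = f.re ^ 2 + f.im ^ 2 := by
    rw [Complex.sq_norm, Complex.normSq_apply]; ring
  simp only [DF]
  generalize ‖P‖ / (1 + ‖P‖ ^ 2) = w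
  generalize ‖P‖ * (1 - ‖P‖ ^ 2) / (1 + ‖P‖ ^ 2) ^ 2 = w1
  generalize ‖f‖ = N at *
  obtain ⟨a, b⟩ := f
  obtain ⟨c, e⟩ := f'
  simp only [Complex.add_re, Complex.sub_re, Complex.mul_re, Complex.mul_im, Complex.add_im,
    Complex.I_re, Complex.I_im, Complex.one_re, Complex.one_im, Complex.ofReal_re, Complex.ofReal_im,
    Complex.neg_re, Complex.neg_im, Complex.re_ofNat, Complex.im_ofNat]
  dsimp only at hN2
  field_simp
  linear_combination (-(w * z.im * (a * e - b * c))) * hN2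

end PTWM

open PTWM in
theorem specPTW (hLGD : SpecLGD) : SpecPTW := by
  intro p hp z hz
  obtain ⟨hP, hb, f', hf', hle⟩ := hLGD p hp z hz
  have hf : lg p z ≠ 0 := by
    intro h
    rw [h] at hb
    simp at hb
  have hd := diff_Fz p z f' hP hf hf'
  refine ⟨hd, ?_⟩
  have hv : ∀ v : ℂ, (fderiv ℝ (Fz p) z) v = DF (p.eval z) (lg p z) f' z v := by
    intro v
    have h1 := line_deriv p z f' v hP hf hf'
    have h2 : HasFDerivAt (Fz p) (fderiv ℝ (Fz p) z) (z + ((0 : ℝ) : ℂ) * v) := by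
      have : z + ((0 : ℝ) : ℂ) * v = z := by simp
      rw [this]
      exact hd.hasFDerivAt
    have h3 := h2.comp_hasDerivAt (0 : ℝ) (line z v)
    exact h3.unique h1
  rw [hv, hv, combine _ _ _ _ hf]
  have hs : sph p z = (‖p.eval z‖ / (1 + ‖p.eval z‖ ^ 2)) * ‖lg p z‖ := by
    unfold sph lg
    rw [norm_div]
    have : ‖p.eval z‖ ≠ 0 := norm_ne_zero_iff.2 hP
    field_simp
  rw [hs]
  refine final _ _ _ _ _ _ _ (by positivity) hb hz ?_ (norm_pos_iff.2 hf) ‖f'‖ (norm_nonneg _) ?_ hle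
  · rw [Complex.sq_norm, Complex.normSq_apply]; ring
  · rw [Complex.sq_norm, Complex.normSq_apply]; ring

end

end Pool.Agent.Lib.MP684ec1.HP
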