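import Pool.Agent.Lib.MP_684ec1_an.HP.Spec

/-!
# SMO: the function `F` is smooth on the upper half-plane
-/

set_option autoImplicit false

namespace Pool.Agent.Lib.MP684ec1.HP

open Complex Polynomial MeasureTheory intervalIntegral

namespace SMOM

lemma evalC (p : ℂ[X]) (z : ℂ) : ContDiffAt ℂ 1 (fun z : ℂ => p.eval z) z := by
  have h : ContDiff ℂ 1 (fun z : ℂ => p.eval z) := by
    have := p.contDiff_aeval (𝕜 := ℂ) (n := 1)
    simpa using this
  exact h.contDiffAt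

end SMOM

theorem specSMO (hLGD : SpecLGD) : SpecSMO := by
  intro p hp z hz
  obtain ⟨h0, hneg, -⟩ := hLGD p hp z hz
  have hl0 : lg p z ≠ 0 := by
    intro h
    rw [h] at hneg
    simp at hneg
  have e1 : ContDiffAt ℝ 1 (fun z : ℂ => p.eval z) z := (SMOM.evalC p z).restrict_scalars ℝ
  have e3 : ContDiffAt ℝ 1 (fun z : ℂ => lg p z) z := by
    have h : ContDiffAt ℂ 1 (fun z : ℂ => p.derivative.eval z / p.eval z) z :=
      (SMOM.evalC p.derivative z).div (SMOM.evalC p z) h0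
    exact h.restrict_scalars ℝ
  have n1 : ContDiffAt ℝ 1 (fun z : ℂ => ‖p.eval z‖) z := e1.norm ℝ h0
  have n2 : ContDiffAt ℝ 1 (fun z : ℂ => ‖lg p z‖) z := e3.norm ℝ hl0
  have w1 : ContDiffAt ℝ 1 (fun z : ℂ => wt p z) z := by
    refine n1.div (contDiffAt_const.add (n1.pow 2)) ?_
    positivity
  have w2 : ContDiffAt ℝ 1 (fun z : ℂ => Wa p z) z := Real.contDiff_arctan.contDiffAt.comp z n1
  have p1 : ContDiffAt ℝ 1 (fun z : ℂ => Psi p z) z := by
    have a1 : ContDiffAt ℝ 1 (fun z : ℂ => z.im) z := Complex.imCLM.contDiff.contDiffAt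
    have a2 : ContDiffAt ℝ 1 (fun z : ℂ => (lg p z).re) z :=
      Complex.reCLM.contDiff.contDiffAt.comp z e3
    exact ((a1.mul a2).div n2 (norm_ne_zero_iff.2 hl0)).neg
  have o : ∀ f : ℂ → ℝ, ContDiffAt ℝ 1 f z → ContDiffAt ℝ 1 (fun z : ℂ => ((f z : ℝ) : ℂ)) z :=
    fun f hf => Complex.ofRealCLM.contDiff.contDiffAt.comp z hf
  have hF : ContDiffAt ℝ 1 (Fz p) z :=
    (contDiffAt_const.mul (o _ w2)).add (((o _ p1).mul (o _ w1)).mul e3)
  exact hF.contDiffWithinAt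

end Pool.Agent.Lib.MP684ec1.HP
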