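import Pool.Agent.Lib.MP_684ec1_an.HP.LGD
import Pool.Agent.Lib.MP_684ec1_an.HP.SMO
import Pool.Agent.Lib.MP_684ec1_an.HP.PTW
import Pool.Agent.Lib.MP_684ec1_an.HP.DIV
import Pool.Agent.Lib.MP_684ec1_an.HP.ARC
import Pool.Agent.Lib.MP_684ec1_an.HP.BDY
import Pool.Agent.Lib.MP_684ec1_an.HP.POL
import Pool.Agent.Lib.MP_684ec1_an.HP.LMT
import Pool.Agent.Lib.MP_684ec1_an.HP.AFF
import Pool.Agent.Lib.MP_684ec1_an.HP.FIN

/-!
# MP_684ec1, HP: assembly
-/

set_option autoImplicit false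

namespace Pool.Agent.Lib.MP684ec1.HP

theorem allBDY : SpecBDY := specBDY specLGD (specSMO specLGD) (specPTW specLGD) specDIV (specARC specLGD)

theorem allLMT : SpecLMT := specLMT allBDY specPOL

theorem allAFF : SpecAFF := specAFF allLMT

theorem allFIN : SpecFIN := specFIN allAFF

end Pool.Agent.Lib.MP684ec1.HP
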