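import Pool.Agent.Lib.MP_684ec1_an.HP.Spec

/-!
# MP_684ec1, HP: module LGD (Schwarz-Pick for the logarithmic derivative)
-/

set_option autoImplicit false

namespace Pool.Agent.Lib.MP684ec1.HP

open Complex Polynomial

namespace LGDM

/-- one term -/
theorem im_term {z ζ : ℂ} (hz : 0 < z.im) (hζ : ζ.im ≤ 0) :
    ‖-(1 / (z - ζ) ^ 2)‖ * z.im ≤ -(1 / (z - ζ)).im ∧ (1 / (z - ζ)).im < 0 := by
  have hd : 0 < (z - ζ).im := by
    rw [Complex.sub_im]
    linarith
  have hne : z - ζ ≠ 0 := fun h => by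
    rw [h, Complex.zero_im] at hd
    exact lt_irrefl _ hd
  have hn : 0 < Complex.normSq (z - ζ) := Complex.normSq_pos.2 hne
  have h1 : (1 / (z - ζ)).im = -((z - ζ).im / Complex.normSq (z - ζ)) := by
    rw [one_div, Complex.inv_im, neg_div]
  have h2 : ‖-(1 / (z - ζ) ^ 2)‖ = 1 / Complex.normSq (z - ζ) := by
    rw [norm_neg, norm_div, norm_one, norm_pow, Complex.sq_norm]
  rw [h1, h2, neg_neg]
  constructor
  · rw [one_div, inv_mul_eq_div]
    refine div_le_div_of_nonneg_right ?_ hn.le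
    rw [Complex.sub_im]
    linarith
  · have := div_pos hd hn
    linarith

theorem bound (z : ℂ) (hz : 0 < z.im) (s : Multiset ℂ) : (∀ ζ ∈ s, ζ.im ≤ 0) →
    ‖(s.map (fun ζ => -(1 / (z - ζ) ^ 2))).sum‖ * z.im ≤ -((s.map (fun ζ => 1 / (z - ζ))).sum).im ∧
    ((s.map (fun ζ => 1 / (z - ζ))).sum).im ≤ 0 ∧
    (s ≠ 0 → ((s.map (fun ζ => 1 / (z - ζ))).sum).im < 0) := by
  induction s using Multiset.induction with
  | empty =>
    intro _
    refine ⟨by simp, by simp, fun h => absurd rfl h⟩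
  | cons a s ih =>
    intro h
    obtain ⟨i1, i2, _⟩ := ih fun ζ hζ => h ζ (Multiset.mem_cons_of_mem hζ)
    obtain ⟨t1, t2⟩ := im_term hz (h a (Multiset.mem_cons_self a s))
    rw [Multiset.map_cons, Multiset.map_cons, Multiset.sum_cons, Multiset.sum_cons,
      Complex.add_im]
    refine ⟨?_, by linarith, fun _ => by linarith⟩
    have h1 := norm_add_le (-(1 / (z - a) ^ 2)) (s.map (fun ζ => -(1 / (z - ζ) ^ 2))).sum
    have h2 := mul_le_mul_of_nonneg_right h1 hz.le
    rw [add_mul] at h2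
    linarith

theorem deriv (z : ℂ) (s : Multiset ℂ) : (∀ ζ ∈ s, z - ζ ≠ 0) →
    HasDerivAt (fun w : ℂ => (s.map (fun ζ => 1 / (w - ζ))).sum)
      (s.map (fun ζ => -(1 / (z - ζ) ^ 2))).sum z := by
  induction s using Multiset.induction with
  | empty =>
    intro _
    simpa using hasDerivAt_const z (0 : ℂ)
  | cons a s ih =>
    intro h
    have h1 := ih fun ζ hζ => h ζ (Multiset.mem_cons_of_mem hζ)
    have hne : z - a ≠ 0 := h a (Multiset.mem_cons_self a s)
    have h2 : HasDerivAt (fun w : ℂ => 1 / (w - a)) (-(1 / (z - a) ^ 2)) z := by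
      have h3 := ((hasDerivAt_id z).sub_const a).inv hne
      have h4 : -(1 : ℂ) / (id z - a) ^ 2 = -(1 / (z - a) ^ 2) := by
        rw [id, neg_div]
      rw [h4] at h3
      refine h3.congr_of_eventuallyEq ?_
      filter_upwards with w
      rw [one_div]
      rfl
    have h5 := h2.add h1
    have e1 : (fun w : ℂ => (((a ::ₘ s).map (fun ζ => 1 / (w - ζ))).sum)) =
        (fun w : ℂ => 1 / (w - a)) + fun w : ℂ => (s.map (fun ζ => 1 / (w - ζ))).sum := by
      funext w
      rw [Multiset.map_cons, Multiset.sum_cons]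
      rfl
    rw [e1, Multiset.map_cons, Multiset.sum_cons]
    exact h5

end LGDM

theorem specLGD : SpecLGD := by
  rintro p ⟨hd, hp⟩ z hz
  have hne : p.eval z ≠ 0 := fun h => by
    have := hp z h
    linarith
  have hp0 : p ≠ 0 := fun h => by
    rw [h, natDegree_zero] at hd
    exact lt_irrefl _ hd
  have hs := IsAlgClosed.splits p
  have hr : ∀ ζ ∈ p.roots, ζ.im ≤ 0 := fun ζ hζ => hp ζ ((mem_roots hp0).1 hζ)
  have hr0 : p.roots ≠ 0 := by
    have hdeg : p.degree ≠ 0 := by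
      intro h
      rw [natDegree_eq_of_degree_eq_some h] at hd
      exact lt_irrefl _ hd
    obtain ⟨x, hx⟩ := IsAlgClosed.exists_root p hdeg
    intro h
    have hm : x ∈ p.roots := (mem_roots hp0).2 hx
    rw [h] at hm
    exact Multiset.notMem_zero x hm
  have hlg : ∀ w : ℂ, p.eval w ≠ 0 → lg p w = (p.roots.map fun ζ => 1 / (w - ζ)).sum :=
    fun w hw => hs.eval_derivative_div_eval_of_ne_zero hw
  obtain ⟨b1, _, b3⟩ := LGDM.bound z hz p.roots hr
  rw [← hlg z hne] at b1 b3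
  refine ⟨hne, b3 hr0, _, ?_, b1⟩
  have hdv := LGDM.deriv z p.roots (fun ζ hζ h => by
    have h1 : z = ζ := sub_eq_zero.1 h
    exact hne (h1 ▸ (mem_roots hp0).1 hζ))
  refine hdv.congr_of_eventuallyEq ?_
  have hc : ContinuousAt (fun w : ℂ => p.eval w) z := p.continuous.continuousAt
  filter_upwards [hc.eventually_ne hne] with w hw
  exact hlg w hw

end Pool.Agent.Lib.MP684ec1.HP
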