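import Mathlib

/-!
# MP_684ec1: Littlewood's integral of the spherical derivative and zero-free half-planes. Definitions and exact statements

THEOREM (`Results/MP_684ec1_an/HalfPlane.lean`). Let `p` be a polynomial (of any degree) and `H` a half-plane whose interior contains no zero of
`p`. Then the integral of `|p'| / (1 + |p|²)` over `D ∩ H` is at most `6 π` (`D` the unit disc). If all zeros of `p` lie on one line, then
`P(p) ≤ 9 π`. (For general polynomials of degree `n` the supremum of `P(p)` grows like a positive power of `n`.)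

Module `XXX` is the file `HP/XXX.lean` with `theorem specXXX (hYYY : SpecYYY) .. : SpecXXX` (the modules named after USES, in this
order) in the namespace `Pool.Agent.Lib.MP684ec1.HP`, own lemmas in the namespace `XXXM`. Every module imports only
`Pool.Agent.Lib.MP_684ec1_an.HP.Spec`. All proofs below are complete.

IDEA. Let all zeros be in `Im z ≤ 0`, `y = Im z > 0`, `f = p'/p`, `h = log |p|` (`h_x - i h_y = f`), `W = arctan |p|`, so that `|∇W| = |p'|/(1+|p|²)`. Then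
`Im f < 0` and `|f'| ≤ |Im f| / y` for `y > 0` (Schwarz-Pick, here trivial). With `Ψ = - y Re f / |f|` and `F = - 2 W + Ψ w f`
(`w = |p|/(1+|p|²)`; `Re (F dz) = - 2 W dx + Ψ dW`) this gives the pointwise inequality `|∇W| dx dy ≤ d Re (F dz)` (PTW), and Stokes on the
half disc leaves `∫ (2 W sin φ + Ψ W_φ) dφ ≤ 2 π + π`, since `log |p|` is a concave function of `cos φ` on the unit half circle (ARC).
-/

set_option autoImplicit false

namespace Pool.Agent.Lib.MP684ec1.HP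

open Complex Polynomial MeasureTheory intervalIntegral

noncomputable section

/-! ## Definitions -/

/-- the spherical derivative `|p'| / (1 + |p|²)` -/
def sph (p : ℂ[X]) (z : ℂ) : ℝ := ‖p.derivative.eval z‖ / (1 + ‖p.eval z‖ ^ 2)

/-- `f = p'/p` -/
def lg (p : ℂ[X]) (z : ℂ) : ℂ := p.derivative.eval z / p.eval z

/-- `w = |p| / (1 + |p|²)` -/
def wt (p : ℂ[X]) (z : ℂ) : ℝ := ‖p.eval z‖ / (1 + ‖p.eval z‖ ^ 2)

/-- `W = arctan |p|` -/
def Wa (p : ℂ[X]) (z : ℂ) : ℝ := Real.arctan ‖p.eval z‖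

/-- `Ψ = - y Re f / |f|` -/
def Psi (p : ℂ[X]) (z : ℂ) : ℝ := -(z.im * (lg p z).re / ‖lg p z‖)

/-- `F = - 2 W + Ψ w f` -/
def Fz (p : ℂ[X]) (z : ℂ) : ℂ := -2 * (Wa p z : ℂ) + (Psi p z : ℂ) * (wt p z : ℂ) * lg p z

/-- not constant, all zeros in the closed lower half-plane -/
def Low (p : ℂ[X]) : Prop := 0 < p.natDegree ∧ ∀ z : ℂ, p.eval z = 0 → z.im ≤ 0

/-- the point with polar coordinates `r, φ` -/
def pt (r φ : ℝ) : ℂ := (r : ℂ) * exp ((φ : ℂ) * I)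

/-- the closed upper half of the unit disc -/
def Hd : Set ℂ := {z : ℂ | ‖z‖ ≤ 1 ∧ 0 ≤ z.im}

/-! ## Statements -/

/-- **LGD** (100 lines). Schwarz-Pick for `p'/p`.
PROOF. `p'/p = ∑ 1/(z - ζ)` over the roots with multiplicity (`Polynomial.eval_derivative_div_eval_of_ne_zero_of_splits` or so), at least one root,
derivative `- ∑ 1/(z - ζ)²` (or differentiate `p'/p` as a quotient and compare; or note that `p'/p` equals the sum in a neighbourhood of `z`).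
`- Im (1/(z - ζ)) = (Im z - Im ζ)/|z - ζ|² ≥ Im z / |z - ζ|²`, so `- Im f ≥ Im z ∑ 1/|z - ζ|² ≥ Im z |f'|` and `> 0`. -/
def SpecLGD : Prop := ∀ p : ℂ[X], Low p → ∀ z : ℂ, 0 < z.im → p.eval z ≠ 0 ∧ (lg p z).im < 0 ∧
  ∃ f' : ℂ, HasDerivAt (lg p) f' z ∧ ‖f'‖ * z.im ≤ -(lg p z).im

/-- **SMO** (100 lines), USES LGD. `F` is smooth.
PROOF. On the open set `Im z > 0` `p ≠ 0` and `lg p ≠ 0` (LGD); `z ↦ p.eval z`, `p.derivative.eval z` are smooth over `ℝ`, `‖·‖` is smooth off `0`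
(`ContDiffAt.norm ℝ`), `Real.arctan`, `re`, `im`, quotients with nonzero denominators. -/
def SpecSMO : Prop := ∀ p : ℂ[X], Low p → ContDiffOn ℝ 1 (Fz p) {z : ℂ | 0 < z.im}

/-- **PTW** (200 lines), USES LGD. The pointwise inequality.
PROOF. `ρ = |p z| > 0`, `f = lg p z = A - i B`, `B > 0`, `f' = C + i E` from LGD, `w = wt`. For `v = 1, i` the real derivatives are `D ρ [v] = ρ Re (f v)`,
`D W [v] = w Re (f v)`, `D w [v] = w₁ Re (f v)` with a real number `w₁ = ρ (1 - ρ²)/(1 + ρ²)²`, `D f [v] = f' v`, `D |f| [v] = Re (conj f · f' v)/|f|`,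
`D Ψ [v] = - Im v · A/|f| - y Re (f' v)/|f| + y A Re (conj f · f' v)/|f|³`, and
`D F [v] = - 2 w Re (f v) + D Ψ [v] w f + Ψ w₁ Re (f v) f + Ψ w f' v`. In `Re (i D F [1] - D F [i])` the last term cancels, the third one is
`Re (i Ψ w₁ |f|²) = 0`, the first one gives `2 w B`, the second one `- w (Im f · D Ψ [1] + Re f · D Ψ [i]) = w (A²/|f| + (y B/|f|³) ((A² - B²) C - 2 A B E))`,
and `(A² - B²) C - 2 A B E = Re ((A + i B)² (C + i E)) ≥ - |f|² |f'|`, `y |f'| ≤ B`. Altogether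
`≥ w (2 B + (A² - B²)/|f|) ≥ w |f| = sph` (`2 B |f| + A² - B² ≥ A² + B²`). -/
def SpecPTW : Prop := ∀ p : ℂ[X], Low p → ∀ z : ℂ, 0 < z.im →
  DifferentiableAt ℝ (Fz p) z ∧ sph p z ≤ (I * (fderiv ℝ (Fz p) z) 1 - (fderiv ℝ (Fz p) z) I).re

/-- **DIV** (150 lines). Stokes in polar coordinates on a box `[ε, 1] × [δ, π - δ]`.
PROOF. The form `F dz` has in polar coordinates the coefficients `a = F e^(iφ)` of `dr` and `b = F i r e^(iφ)` of `dφ`.
`∂_r b - ∂_φ a = r e^(iφ) (i DF [e^(iφ)] - DF [i e^(iφ)]) = r (i DF [1] - DF [i])`: for `e = x + i y`, `|e| = 1`, and a real linear `L`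
`e (i L e - L (i e)) = (x + i y)(x - i y)(i L 1 - L i)`. Use `MeasureTheory.integral2_divergence_prod_of_hasFDerivAt_off_countable` (or
`..WithinAt..`) with `f = b`, `g = - a`, or Fubini and the fundamental theorem of calculus in `r` for `b` and in `φ` for `a` (everything is continuous on the box). -/
def SpecDIV : Prop := ∀ F : ℂ → ℂ, ContDiffOn ℝ 1 F {z : ℂ | 0 < z.im} → ∀ ε δ : ℝ, 0 < ε → ε < 1 → 0 < δ → δ < Real.pi / 2 →
  (∫ φ in δ..(Real.pi - δ), ∫ r in ε..1, r * (I * (fderiv ℝ F (pt r φ)) 1 - (fderiv ℝ F (pt r φ)) I).re) =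
    (∫ φ in δ..(Real.pi - δ), (F (pt 1 φ) * I * pt 1 φ).re) - (∫ φ in δ..(Real.pi - δ), (F (pt ε φ) * I * pt ε φ).re)
    - (∫ r in ε..1, (F (pt r (Real.pi - δ)) * pt 1 (Real.pi - δ)).re) + ∫ r in ε..1, (F (pt r δ) * pt 1 δ).re

/-- **ARC** (180 lines), USES LGD. On the half circle `W` first increases, then decreases.
PROOF. `f(e^(iφ)) = ∑ 1/(e^(iφ) - ζ)`, `ζ = a - i b`, `b ≥ 0`; `Re (i e^(iφ)/(e^(iφ) - ζ)) = (a sin φ + b cos φ)/q`, `q = |e^(iφ) - ζ|² = 1 + a² + b² - 2 a cos φ + 2 b sin φ > 0`.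
Divided by `sin φ` this is `(a + b cot φ)/q`, with the derivative `- (b q / sin² φ + 2 sin φ (a + b cot φ)²)/q² ≤ 0`: nonincreasing on `(0, π)`. So `T φ / sin φ`,
`T φ = Re (f i e^(iφ))`, is nonincreasing, and there is `φ₀` in `[δ, π - δ]` with `T ≥ 0` on `[δ, φ₀)` and `T ≤ 0` on `(φ₀, π - δ]`. As
`d/dφ W(e^(iφ)) = w T`, `∫ |w T| = 2 W(e^(iφ₀)) - W(e^(iδ)) - W(e^(i(π-δ))) ≤ 2 π/2`. -/
def SpecARC : Prop := ∀ p : ℂ[X], Low p → ∀ δ : ℝ, 0 < δ → δ < Real.pi / 2 →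
  ∫ φ in δ..(Real.pi - δ), |((wt p (pt 1 φ) : ℂ) * lg p (pt 1 φ) * I * pt 1 φ).re| ≤ Real.pi

/-- **BDY** (150 lines), USES LGD, SMO, PTW, DIV, ARC. The integral over the box.
PROOF. `M ≥ sph` on the closed unit disc (continuous). `‖wt · lg‖ = sph`, `|Ψ| ≤ y`. `0 ≤ W ≤ π/2`. By PTW and DIV the integral is at most the sum of:
`∫ Re (F(e^(iφ)) i e^(iφ)) = ∫ (2 W sin φ + Ψ Re (w f i e^(iφ))) ≤ ∫ π sin φ + ∫ |Re (w f i e^(iφ))| ≤ 2 π + π` (ARC; `|Ψ| ≤ sin φ ≤ 1`);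
`- ∫ Re (F(ε e^(iφ)) i ε e^(iφ)) ≤ π ε (π + M)`; `- ∫ Re (F e^(i(π-δ))) = ∫ (2 W cos (π - δ) - ..) ≤ M sin δ ≤ M δ`;
`∫ Re (F e^(iδ)) = ∫ (- 2 W cos δ + ..) ≤ M δ`. -/
def SpecBDY : Prop := ∀ p : ℂ[X], Low p → ∃ C : ℝ, ∀ ε δ : ℝ, 0 < ε → ε < 1 → 0 < δ → δ < Real.pi / 2 →
  (∫ φ in δ..(Real.pi - δ), ∫ r in ε..1, r * sph p (pt r φ)) ≤ 3 * Real.pi + C * (ε + δ)

/-- **POL** (80 lines). Polar coordinates on the half disc (`Complex.integral_comp_polarCoord_symm`, `polarCoord.target = Ioi 0 ×ˢ Ioo (-π) π`,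
indicator of `Hd`; `f` continuous, so everything is bounded on bounded sets and integrable; Fubini). -/
def SpecPOL : Prop := ∀ f : ℂ → ℝ, Continuous f → ∫ z in Hd, f z = ∫ φ in (0 : ℝ)..Real.pi, ∫ r in (0 : ℝ)..1, r * f (pt r φ)

/-- **LMT** (100 lines), USES BDY, POL. The half disc.
PROOF. `sph p` is continuous and `0 ≤ r sph ≤ M` on `[0, 1] × [0, π]`: `∫_0^π ∫_0^1 ≤ ∫_δ^(π-δ) ∫_ε^1 + M (2 δ + π ε)`; POL, BDY, `ε = δ → 0`. -/
def SpecLMT : Prop := ∀ p : ℂ[X], Low p → ∫ z in Hd, sph p z ≤ 3 * Real.pi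

/-- **AFF** (120 lines), USES LMT. Every half disc.
PROOF. If `p` is constant both sides are trivial (`sph = 0`). Else `q = p.comp (C c + C (R u) * X)` is `Low`, `sph q w = R sph p (c + R u w)`, and with `z = c + R u w`
(`dA_z = R² dA_w`; the set is the image of `Hd`) the integral is `R² ∫_Hd sph p (c + R u w) = R ∫_Hd sph q ≤ 3 π R`. -/
def SpecAFF : Prop := ∀ (p : ℂ[X]) (c u : ℂ) (R : ℝ), 0 < R → ‖u‖ = 1 →
  (∀ z : ℂ, p.eval z = 0 → ((z - c) * (starRingEnd ℂ) u).im ≤ 0) →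
  ∫ z in {z : ℂ | ‖z - c‖ ≤ R ∧ 0 ≤ ((z - c) * (starRingEnd ℂ) u).im}, sph p z ≤ 3 * Real.pi * R

/-- **FIN** (120 lines), USES AFF. The theorem.
PROOF. (1) Let `t = Re (z conj u)`. If `c ≥ 0`, the set is contained in the half disc with centre `c u`, radius `1` (`|z - c u|² = |z|² - 2 c t + c² ≤ 1 - c²`). If
`-1 ≤ c < 0` in the half disc with centre `c u`, radius `2`. If `c < -1` use `c = -1`. (AFF with direction `i u` or `- i u`: `Im ((z - c u) conj (-i u)) = Re ((z - c u) conj u) = t - c`.)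
So the bound is `3 π` for `c ≥ 0` and `6 π` always (`sph ≥ 0`, continuous, monotonicity of set integrals).
(2) One of `c ≥ 0`, `-c ≥ 0` (replace `u` by `-u`): `D` is the union of the two parts `t ≥ c` (bound `3 π`) and `t ≤ c` (bound `6 π`). -/
def SpecFIN : Prop :=
  (∀ (p : ℂ[X]) (u : ℂ) (c : ℝ), ‖u‖ = 1 → (∀ z : ℂ, p.eval z = 0 → (z * (starRingEnd ℂ) u).re ≤ c) →
    ∫ z in {z : ℂ | ‖z‖ ≤ 1 ∧ c ≤ (z * (starRingEnd ℂ) u).re}, sph p z ≤ 6 * Real.pi) ∧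
  ∀ (p : ℂ[X]) (u : ℂ) (c : ℝ), ‖u‖ = 1 → (∀ z : ℂ, p.eval z = 0 → (z * (starRingEnd ℂ) u).re = c) →
    ∫ z in Metric.closedBall (0 : ℂ) 1, sph p z ≤ 9 * Real.pi

end

end Pool.Agent.Lib.MP684ec1.HP
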